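import Pool.Agent.Helper87.RP.Reg1
import Pool.Agent.Helper87.RP.RegPL
import Pool.Agent.Helper87.RP.Reg2
import Pool.Agent.Helper87.RP.Pick

/-!
RS-2a (MP_464c42_nt). The two regimes with their parameters (from `Helper87/RP/AP.lean` (helper87), without the choice of the indices).
(helper87, helper93)
-/

set_option autoImplicit false

open Pool.Agent.Helper87.Camp Pool.Agent.Helper10 Pool.Agent.Helper91.CPX

namespace Pool.Agent.Helper93.RS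

open Pool.Agent.Helper24.TU Pool.Agent.Helper24.TV Pool.Agent.Helper87.RP

private lemma ap_large (c : ℝ) (hc : 0 < c) (K : ℝ) :
    ∃ N1 : ℕ, 1 ≤ N1 ∧ ∀ N : ℕ, N1 ≤ N → K ≤ (N : ℝ) ^ c := by
  have h := (tendsto_rpow_atTop hc).comp tendsto_natCast_atTop_atTop
  obtain ⟨N1, hN1⟩ := Filter.eventually_atTop.1 (h.eventually_ge_atTop K)
  exact ⟨max N1 1, le_max_right _ _, fun N hN => hN1 N (le_trans (le_max_left _ _) hN)⟩

private lemma ceil_facts (x : ℝ) (hx : 1 ≤ x) :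
    x ≤ (⌈x⌉₊ : ℝ) ∧ (⌈x⌉₊ : ℝ) ≤ 2 * x ∧ 1 ≤ ⌈x⌉₊ := by
  refine ⟨Nat.le_ceil _, ?_, Nat.one_le_ceil_iff.2 (by linarith)⟩
  have := Nat.ceil_lt_add_one (show 0 ≤ x by linarith)
  linarith

/-- The two counting statements for `n + 2` terms with sum zero. -/
def Reg (n MA M1 : ℕ) (S : Finset ℕ) (C B : ℝ) (N D W1 : ℕ) (Lm : ℤ) (Y : Fin (n + 2) → ℕ) : Prop :=
  (∀ t j l : Fin (n + 2), t ≠ j → t ≠ l → j ≠ l → ∀ T : Finset (Fin (n + 2) → ℤ),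
    (∀ a ∈ T, (∀ i, a i ∈ Rset S (Y i) N) ∧ ∑ i, a i = 0 ∧ ∃ d : ℕ, 1 ≤ d ∧ d ≤ D * W1 ∧
      ((d ^ MA : ℕ) : ℤ) ∣ a t ∧ IsCoprime (a j) (d : ℤ) ∧ IsCoprime (a l) (d : ℤ) ∧
      D ^ M1 ≤ d ^ MA) →
    (T.card : ℝ) ≤ C * (((∏ h ∈ ((Finset.univ.erase t).erase j).erase l, (Y h : ℝ)) *
      Real.sqrt ((Y j : ℝ) * Y l)) * B)) ∧
  ∀ t b : Fin (n + 2), t ≠ b → ∀ T : Finset (Fin (n + 2) → ℤ),
    (∀ a ∈ T, (∀ i, a i ∈ Rset S (Y i) N) ∧ ∑ i, a i = 0 ∧ radM S MA W1 (a t) ≤ D ∧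
      NoSmallRatio (a t) (a t + a b) Lm) →
    (T.card : ℝ) ≤ C * ((∏ h ∈ (Finset.univ.erase t).erase b, (Y h : ℝ)) * B)

theorem apCore (n P : ℕ) (hn1 : 1 ≤ n) (hP1 : 1 ≤ P) (ε : ℝ) (hε : 0 < ε) :
    ∃ (M1 : ℕ) (lam0 : ℝ), 1 ≤ M1 ∧ 0 < lam0 ∧ ∀ lam : ℝ, 0 < lam → lam ≤ lam0 →
      ∀ (S : Finset ℕ) (G K : ℕ), ∃ (C : ℝ) (N1 : ℕ), 1 ≤ C ∧ ∀ N : ℕ, N1 ≤ N → 1 ≤ N →
      ∃ (D W1 : ℕ) (Lm : ℤ), 1 ≤ D ∧ 1 ≤ W1 ∧ 1 ≤ Lm ∧
        ((G : ℤ)) ^ 2 * ((2 * n + 1) * (K * Lm) ^ (2 * n + 1)) < N ∧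
        ∀ Y : Fin (n + 2) → ℕ, (∀ i, 1 ≤ Y i ∧ (Y i : ℝ) ≤ (N : ℝ) ^ lam) →
          Reg n (P * M1) M1 S C ((N : ℝ) ^ (ε * lam)) N D W1 Lm Y := by
  classical
  obtain ⟨κ, hκ0, hκε, hκ1⟩ : ∃ κ : ℝ, 0 < κ ∧ κ ≤ ε / 16 ∧ κ ≤ 1 / 16 :=
    ⟨min (ε / 16) (1 / 16), lt_min (by linarith) (by norm_num), min_le_left _ _, min_le_right _ _⟩
  obtain ⟨H1, hH1, hH1κ⟩ : ∃ H : ℕ, 1 ≤ H ∧ 4 ≤ κ * H := by
    refine ⟨⌈4 / κ⌉₊, Nat.one_le_ceil_iff.2 (by positivity), ?_⟩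
    have h1 := Nat.le_ceil (4 / κ)
    rw [div_le_iff₀ hκ0] at h1
    linarith
  obtain ⟨M1, hM1, hM1κ⟩ : ∃ M1 : ℕ, 1 ≤ M1 ∧ 5 ≤ κ * M1 := by
    refine ⟨⌈5 / κ⌉₊, Nat.one_le_ceil_iff.2 (by positivity), ?_⟩
    have h1 := Nat.le_ceil (5 / κ)
    rw [div_le_iff₀ hκ0] at h1
    linarith
  obtain ⟨MA, hMA⟩ : ∃ MA : ℕ, MA = P * M1 := ⟨_, rfl⟩
  have hMA1 : 1 ≤ MA := by rw [hMA]; exact Nat.mul_pos hP1 hM1
  obtain ⟨M2, hM2, hPLr⟩ := regPL n MA H1 hn1 hMA1 (κ / 2) (ε / 4) (by positivity) (by positivity)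
  obtain ⟨M3, hM3d⟩ : ∃ M3 : ℕ, M3 = MA + M2 := ⟨_, rfl⟩
  have hM3 : 1 ≤ M3 := by omega
  have hM3R : (1 : ℝ) ≤ M3 := by exact_mod_cast hM3
  obtain ⟨κ2, hκ20, hκ2κ, hκ2M⟩ : ∃ κ2 : ℝ, 0 < κ2 ∧ κ2 ≤ κ / 2 ∧ κ2 * M3 ≤ 1 / 2 := by
    refine ⟨min (κ / 2) (1 / (2 * M3)), lt_min (by positivity) (by positivity), min_le_left _ _, ?_⟩
    calc min (κ / 2) (1 / (2 * (M3 : ℝ))) * M3 ≤ 1 / (2 * (M3 : ℝ)) * M3 :=
          mul_le_mul_of_nonneg_right (min_le_right _ _) (by linarith)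
      _ = 1 / 2 := by field_simp
  obtain ⟨H3, hH3, hH3κ⟩ : ∃ H : ℕ, 1 ≤ H ∧ 2 ≤ κ2 * H := by
    refine ⟨⌈2 / κ2⌉₊, Nat.one_le_ceil_iff.2 (by positivity), ?_⟩
    have h1 := Nat.le_ceil (2 / κ2)
    rw [div_le_iff₀ hκ20] at h1
    linarith
  obtain ⟨m0, hm0, hreg2⟩ := reg2 n M3 H3 hn1 hM3 hH3 (ε / 4) (by positivity)
  have hm0R : (1 : ℝ) ≤ m0 := by exact_mod_cast hm0
  have hMAR : (1 : ℝ) ≤ MA := by exact_mod_cast hMA1
  have hn0 : (0 : ℝ) ≤ n := Nat.cast_nonneg n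
  obtain ⟨q, hq⟩ : ∃ q : ℕ, q = m0 * (2 * n + 1) := ⟨_, rfl⟩
  have hqR : (1 : ℝ) ≤ q := by
    have : 1 ≤ q := by rw [hq]; exact Nat.mul_pos hm0 (by omega)
    exact_mod_cast this
  have hqm : m0 ≤ q := by rw [hq]; exact Nat.le_mul_of_pos_right _ (by omega)
  refine ⟨M1, 1 / (2 * (q + MA)), hM1, by positivity, ?_⟩
  intro lam hlam hlam0 S G K
  have hlam1 : lam * (q + MA) ≤ 1 / 2 := by
    rw [le_div_iff₀ (by positivity)] at hlam0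
    linarith
  have hlamqMA := mul_add lam (q : ℝ) (MA : ℝ)
  have hlamq0 : 0 ≤ lam * (q : ℝ) := by positivity
  have hlamMA0 : 0 ≤ lam * (MA : ℝ) := by positivity
  have hlamq : lam * q ≤ 1 / 2 := by linarith
  have hlamMA : lam * MA ≤ 1 / 2 := by linarith
  obtain ⟨m, hmdef⟩ : ∃ m : ℕ, m = ⌈1 / lam⌉₊ := ⟨_, rfl⟩
  have hmlam : 1 ≤ lam * m := by
    have h1 := Nat.le_ceil (1 / lam)
    rw [← hmdef, div_le_iff₀ hlam] at h1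
    linarith
  have hmle : ∀ s : ℕ, lam * s ≤ 1 / 2 → s ≤ m := by
    intro s hs
    have h3 : lam * s ≤ lam * m := by linarith
    have h1 : (s : ℝ) ≤ m := le_of_mul_le_mul_left h3 hlam
    exact_mod_cast h1
  have hmm0 : m0 ≤ m := hqm.trans (hmle q hlamq)
  have hmMA : MA ≤ H1 * m := (hmle MA hlamMA).trans (Nat.le_mul_of_pos_left _ hH1)
  obtain ⟨E, hE, hEl⟩ : ∃ E : ℕ, 1 ≤ E ∧ 2 / ((E : ℝ) + 1) ≤ ε / 4 * lam := by
    refine ⟨⌈2 / (ε / 4 * lam)⌉₊, Nat.one_le_ceil_iff.2 (by positivity), ?_⟩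
    have h1 := Nat.le_ceil (2 / (ε / 4 * lam))
    rw [div_le_iff₀ (by positivity)] at h1
    rw [div_le_iff₀ (by positivity)]
    have h2 := mul_pos (show (0 : ℝ) < ε / 4 by linarith) hlam
    rw [mul_add, mul_one, mul_comm (ε / 4 * lam)]
    linarith
  obtain ⟨C1, hC1, hc1⟩ := reg1 n MA E hn1 hE S (ε / 4 * lam) (by positivity)
  obtain ⟨C2, hC2, hc2⟩ := hPLr m hmMA S (ε / 4 * lam) (by positivity)
  obtain ⟨C3, hC3, hc3⟩ := hreg2 m hmm0 S (ε / 4 * lam) (by positivity)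
  obtain ⟨Na, hNa1, hNa⟩ := ap_large lam hlam ((3 * 2 ^ E) ^ 4)
  obtain ⟨Nb, hNb1, hNb⟩ := ap_large (1 / 2) (by norm_num)
    ((G : ℝ) ^ 2 * ((2 * n + 1) * ((K : ℝ) ^ (2 * n + 1) * 3 ^ q)) + 1)
  obtain ⟨Nc, hNc1, hNc⟩ := ap_large (lam / 2) (by positivity) (2 ^ M3 + 4)
  obtain ⟨N1, hN1a, hN1b, hN1c⟩ : ∃ N1 : ℕ, Na ≤ N1 ∧ Nb ≤ N1 ∧ Nc ≤ N1 :=
    ⟨max Na (max Nb Nc), le_max_left _ _, (le_max_left _ _).trans (le_max_right _ _),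
      (le_max_right _ _).trans (le_max_right _ _)⟩
  have h3ε : (1 : ℝ) ≤ 3 ^ (ε / 4) := Real.one_le_rpow (by norm_num) (by positivity)
  obtain ⟨K1, hK1⟩ : ∃ K1 : ℝ, K1 = C1 * 4 := ⟨_, rfl⟩
  obtain ⟨K2, hK2⟩ : ∃ K2 : ℝ, K2 = C2 * (2 ^ 4 * 3 ^ (ε / 4)) := ⟨_, rfl⟩
  obtain ⟨K3, hK3⟩ : ∃ K3 : ℝ, K3 = C3 * (2 ^ 8 * 3 ^ (ε / 4)) := ⟨_, rfl⟩
  have hK10 : 1 ≤ K1 := by rw [hK1]; linarith
  have hK20 : 0 ≤ K2 := by rw [hK2]; positivity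
  have hK30 : 0 ≤ K3 := by rw [hK3]; positivity
  refine ⟨K1 + K2 + K3, N1, by linarith, ?_⟩
  intro N hNN hN
  have hNR : (1 : ℝ) ≤ (N : ℝ) := by exact_mod_cast hN
  have hN0 : (0 : ℝ) < (N : ℝ) := by linarith
  have hNa' := hNa N (by omega)
  have hNb' := hNb N (by omega)
  have hNc' := hNc N (by omega)
  obtain ⟨y0, hy0⟩ : ∃ y0 : ℝ, y0 = (N : ℝ) ^ lam := ⟨_, rfl⟩
  have hy01 : 1 ≤ y0 := by rw [hy0]; exact Real.one_le_rpow hNR hlam.le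
  rw [← hy0] at hNa'
  obtain ⟨X, hX⟩ : ∃ X : ℕ, X = ⌈y0⌉₊ + 1 := ⟨_, rfl⟩
  have hXl : y0 ≤ (X : ℝ) := by
    have := Nat.le_ceil y0
    rw [hX]; push_cast; linarith
  have hXu : (X : ℝ) ≤ 3 * y0 := by
    have := Nat.ceil_lt_add_one (show 0 ≤ y0 by linarith)
    rw [hX]; push_cast; linarith
  have hX2 : 2 ≤ X := by
    have h1 : 1 ≤ ⌈y0⌉₊ := Nat.one_le_ceil_iff.2 (by linarith)
    omega
  obtain ⟨w1, hw1⟩ : ∃ w1 : ℝ, w1 = (N : ℝ) ^ (κ * lam / 2) := ⟨_, rfl⟩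
  have hw11 : 1 ≤ w1 := by rw [hw1]; exact Real.one_le_rpow hNR (by positivity)
  obtain ⟨W1, hW1⟩ : ∃ W : ℕ, W = ⌈w1⌉₊ := ⟨_, rfl⟩
  obtain ⟨hW1l, hW1u, hW11⟩ := ceil_facts w1 hw11
  rw [← hW1] at hW1l hW1u hW11
  obtain ⟨w2, hw2⟩ : ∃ w2 : ℝ, w2 = (N : ℝ) ^ (κ2 * lam) := ⟨_, rfl⟩
  have hw21 : 1 ≤ w2 := by rw [hw2]; exact Real.one_le_rpow hNR (by positivity)
  obtain ⟨W2, hW2⟩ : ∃ W : ℕ, W = ⌈w2⌉₊ := ⟨_, rfl⟩
  obtain ⟨hW2l, hW2u, hW21⟩ := ceil_facts w2 hw21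
  rw [← hW2] at hW2l hW2u hW21
  obtain ⟨d0, hd0⟩ : ∃ d0 : ℝ, d0 = (N : ℝ) ^ (κ * lam) := ⟨_, rfl⟩
  have hd01 : 1 ≤ d0 := by rw [hd0]; exact Real.one_le_rpow hNR (by positivity)
  obtain ⟨D, hD⟩ : ∃ D : ℕ, D = ⌈d0⌉₊ := ⟨_, rfl⟩
  obtain ⟨hDl, hDu, hD1⟩ := ceil_facts d0 hd01
  rw [← hD] at hDl hDu hD1
  have hW12 : W2 ≤ W1 := by
    rw [hW1, hW2]
    apply Nat.ceil_mono
    rw [hw1, hw2]
    apply Real.rpow_le_rpow_of_exponent_le hNR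
    linarith [mul_le_mul_of_nonneg_right hκ2κ hlam.le]
  have hW1X : W1 ≤ X := by
    have h1 : w1 ≤ y0 := by
      rw [hw1, hy0]
      apply Real.rpow_le_rpow_of_exponent_le hNR
      linarith [mul_le_mul_of_nonneg_right hκ1 hlam.le]
    have h2 : ⌈w1⌉₊ ≤ ⌈y0⌉₊ := Nat.ceil_mono h1
    omega
  have hW2X : W2 ≤ X := hW12.trans hW1X
  have h3E : (1 : ℝ) ≤ 2 ^ E := one_le_pow₀ (by norm_num)
  have h81 : (3 : ℝ) ≤ y0 := by
    have h1 : (3 : ℝ) ≤ (3 * 2 ^ E) ^ 4 := by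
      have h2 : (3 : ℝ) ≤ 3 * 2 ^ E := by linarith
      calc (3 : ℝ) ≤ 3 * 2 ^ E := h2
        _ = (3 * 2 ^ E) ^ 1 := (pow_one _).symm
        _ ≤ (3 * 2 ^ E) ^ 4 := pow_le_pow_right₀ (by linarith) (by norm_num)
    linarith
  have hXyy : (X : ℝ) ≤ (N : ℝ) ^ (lam + lam) := by
    calc (X : ℝ) ≤ 3 * y0 := hXu
      _ ≤ y0 * y0 := mul_le_mul_of_nonneg_right h81 (by linarith)
      _ = (N : ℝ) ^ (lam + lam) := by rw [hy0, Real.rpow_add hN0]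
  have hXW1 : X ≤ W1 ^ H1 := by
    have h1 : (X : ℝ) ≤ (W1 : ℝ) ^ H1 := by
      calc (X : ℝ) ≤ (N : ℝ) ^ (lam + lam) := hXyy
        _ ≤ (N : ℝ) ^ (κ * lam / 2 * (H1 : ℝ)) := by
            apply Real.rpow_le_rpow_of_exponent_le hNR
            linarith [mul_le_mul_of_nonneg_right hH1κ hlam.le]
        _ = w1 ^ H1 := by rw [hw1, Real.rpow_mul hN0.le, Real.rpow_natCast]
        _ ≤ (W1 : ℝ) ^ H1 := pow_le_pow_left₀ (by linarith) hW1l _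
    exact_mod_cast h1
  have hNW1 : N ≤ W1 ^ (H1 * m) := by
    have h1 : (N : ℝ) ≤ (W1 : ℝ) ^ (H1 * m) := by
      calc (N : ℝ) = (N : ℝ) ^ (1 : ℝ) := (Real.rpow_one _).symm
        _ ≤ (N : ℝ) ^ (κ * lam / 2 * ((H1 * m : ℕ) : ℝ)) := by
          apply Real.rpow_le_rpow_of_exponent_le hNR
          push_cast
          have h2 : 4 * 1 ≤ (κ * H1) * (lam * m) :=
            mul_le_mul hH1κ hmlam (by norm_num) (by positivity)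
          linarith [h2]
        _ = w1 ^ (H1 * m) := by rw [hw1, Real.rpow_mul hN0.le, Real.rpow_natCast]
        _ ≤ (W1 : ℝ) ^ (H1 * m) := pow_le_pow_left₀ (by linarith) hW1l _
    exact_mod_cast h1
  have hXW2 : X ≤ W2 ^ H3 := by
    have h1 : (X : ℝ) ≤ (W2 : ℝ) ^ H3 := by
      calc (X : ℝ) ≤ (N : ℝ) ^ (lam + lam) := hXyy
        _ ≤ (N : ℝ) ^ (κ2 * lam * (H3 : ℝ)) := by
            apply Real.rpow_le_rpow_of_exponent_le hNR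
            linarith [mul_le_mul_of_nonneg_right hH3κ hlam.le]
        _ = w2 ^ H3 := by rw [hw2, Real.rpow_mul hN0.le, Real.rpow_natCast]
        _ ≤ (W2 : ℝ) ^ H3 := pow_le_pow_left₀ (by linarith) hW2l _
    exact_mod_cast h1
  have hNW2 : N ≤ W2 ^ (H3 * m) := by
    have h1 : (N : ℝ) ≤ (W2 : ℝ) ^ (H3 * m) := by
      calc (N : ℝ) = (N : ℝ) ^ (1 : ℝ) := (Real.rpow_one _).symm
        _ ≤ (N : ℝ) ^ (κ2 * lam * ((H3 * m : ℕ) : ℝ)) := by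
          apply Real.rpow_le_rpow_of_exponent_le hNR
          push_cast
          have h2 : 2 * 1 ≤ (κ2 * H3) * (lam * m) :=
            mul_le_mul hH3κ hmlam (by norm_num) (by positivity)
          linarith [h2]
        _ = w2 ^ (H3 * m) := by rw [hw2, Real.rpow_mul hN0.le, Real.rpow_natCast]
        _ ≤ (W2 : ℝ) ^ (H3 * m) := pow_le_pow_left₀ (by linarith) hW2l _
    exact_mod_cast h1
  have hbig : (2 ^ E * X) ^ 4 ≤ D ^ M1 := by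
    have h1 : ((2 ^ E * (X : ℝ)) ^ 4) ≤ (D : ℝ) ^ M1 := by
      have h2 : y0 ^ 5 ≤ d0 ^ M1 := by
        have e1 : y0 ^ 5 = (N : ℝ) ^ (lam * 5) := by
          rw [hy0, Real.rpow_mul hN0.le]
          exact (Real.rpow_natCast _ 5).symm
        have e2 : d0 ^ M1 = (N : ℝ) ^ (κ * lam * (M1 : ℝ)) := by
          rw [hd0, Real.rpow_mul hN0.le (κ * lam) (M1 : ℝ), Real.rpow_natCast]
        rw [e1, e2]
        apply Real.rpow_le_rpow_of_exponent_le hNR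
        linarith [mul_le_mul_of_nonneg_right hM1κ hlam.le]
      calc ((2 ^ E * (X : ℝ)) ^ 4) ≤ (2 ^ E * (3 * y0)) ^ 4 := by gcongr
        _ = (3 * 2 ^ E) ^ 4 * y0 ^ 4 := by ring
        _ ≤ y0 * y0 ^ 4 := mul_le_mul_of_nonneg_right hNa' (by positivity)
        _ = y0 ^ 5 := by ring
        _ ≤ d0 ^ M1 := h2
        _ ≤ (D : ℝ) ^ M1 := pow_le_pow_left₀ (by linarith) hDl _
    exact_mod_cast h1
  have hhalf : (N : ℝ) ^ (lam / 2) * (N : ℝ) ^ (lam / 2) = y0 := by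
    rw [hy0, ← Real.rpow_add hN0]
    congr 1
    ring
  have hhalf1 : (1 : ℝ) ≤ (N : ℝ) ^ (lam / 2) := Real.one_le_rpow hNR (by positivity)
  have hW2M : W2 ^ M3 ≤ X := by
    have h1 : ((W2 : ℝ)) ^ M3 ≤ (X : ℝ) := by
      have e1 : w2 ^ M3 ≤ (N : ℝ) ^ (lam / 2) := by
        rw [hw2, ← Real.rpow_natCast, ← Real.rpow_mul hN0.le]
        apply Real.rpow_le_rpow_of_exponent_le hNR
        linarith [mul_le_mul_of_nonneg_right hκ2M hlam.le]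
      calc (W2 : ℝ) ^ M3 ≤ (2 * w2) ^ M3 := pow_le_pow_left₀ (Nat.cast_nonneg _) hW2u _
        _ = 2 ^ M3 * w2 ^ M3 := by rw [mul_pow]
        _ ≤ (N : ℝ) ^ (lam / 2) * (N : ℝ) ^ (lam / 2) :=
            mul_le_mul (by linarith) e1 (by positivity) (by positivity)
        _ = y0 := hhalf
        _ ≤ X := hXl
    exact_mod_cast h1
  have hVX : D * W2 ≤ X := by
    have h1 : ((D : ℝ) * W2) ≤ (X : ℝ) := by
      have e1 : d0 * w2 ≤ (N : ℝ) ^ (lam / 2) := by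
        rw [hd0, hw2, ← Real.rpow_add hN0]
        apply Real.rpow_le_rpow_of_exponent_le hNR
        linarith [mul_le_mul_of_nonneg_right hκ1 hlam.le, mul_le_mul_of_nonneg_right hκ2κ hlam.le]
      have e2 : (4 : ℝ) ≤ (N : ℝ) ^ (lam / 2) := by
        have : (0 : ℝ) ≤ 2 ^ M3 := by positivity
        linarith
      calc (D : ℝ) * W2 ≤ (2 * d0) * (2 * w2) := by gcongr
        _ = 4 * (d0 * w2) := by ring
        _ ≤ (N : ℝ) ^ (lam / 2) * (N : ℝ) ^ (lam / 2) :=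
            mul_le_mul e2 e1 (by positivity) (by positivity)
        _ = y0 := hhalf
        _ ≤ X := hXl
    exact_mod_cast h1
  have hXκD : (X : ℝ) ^ (κ / 2) ≤ (D : ℝ) := by
    calc (X : ℝ) ^ (κ / 2) ≤ ((N : ℝ) ^ (lam + lam)) ^ (κ / 2) :=
          Real.rpow_le_rpow (Nat.cast_nonneg _) hXyy (by positivity)
      _ = d0 := by
          rw [hd0, ← Real.rpow_mul hN0.le]
          congr 1
          ring
      _ ≤ D := hDl
  -- the size of `L = X ^ m0`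
  obtain ⟨Lm, hLm⟩ : ∃ Lm : ℤ, Lm = (X : ℤ) ^ m0 := ⟨_, rfl⟩
  have hLm1 : 1 ≤ Lm := by
    rw [hLm]
    exact one_le_pow₀ (by exact_mod_cast (by omega : 1 ≤ X))
  have hsize : ((G : ℤ)) ^ 2 * ((2 * n + 1) * (K * Lm) ^ (2 * n + 1)) < N := by
    have hX3 : (X : ℝ) ^ q ≤ 3 ^ q * (N : ℝ) ^ ((1 : ℝ) / 2) := by
      have e2 : y0 ^ q ≤ (N : ℝ) ^ ((1 : ℝ) / 2) := by
        rw [hy0, ← Real.rpow_natCast, ← Real.rpow_mul hN0.le]
        apply Real.rpow_le_rpow_of_exponent_le hNR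
        linarith
      calc (X : ℝ) ^ q ≤ (3 * y0) ^ q := pow_le_pow_left₀ (Nat.cast_nonneg _) hXu _
        _ = 3 ^ q * y0 ^ q := by rw [mul_pow]
        _ ≤ _ := mul_le_mul_of_nonneg_left e2 (by positivity)
    have hs : (N : ℝ) ^ ((1 : ℝ) / 2) * (N : ℝ) ^ ((1 : ℝ) / 2) = N := by
      rw [← Real.rpow_add hN0]
      norm_num
    have hsp : (0 : ℝ) < (N : ℝ) ^ ((1 : ℝ) / 2) := Real.rpow_pos_of_pos hN0 _
    have hlt : (G : ℝ) ^ 2 * ((2 * n + 1) * ((K : ℝ) ^ (2 * n + 1) * (X : ℝ) ^ q)) < N := by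
      calc (G : ℝ) ^ 2 * ((2 * n + 1) * ((K : ℝ) ^ (2 * n + 1) * (X : ℝ) ^ q))
          ≤ (G : ℝ) ^ 2 * ((2 * n + 1) * ((K : ℝ) ^ (2 * n + 1) *
            (3 ^ q * (N : ℝ) ^ ((1 : ℝ) / 2)))) := by gcongr
        _ = ((G : ℝ) ^ 2 * ((2 * n + 1) * ((K : ℝ) ^ (2 * n + 1) * 3 ^ q))) *
            (N : ℝ) ^ ((1 : ℝ) / 2) := by ring
        _ < (N : ℝ) ^ ((1 : ℝ) / 2) * (N : ℝ) ^ ((1 : ℝ) / 2) := by
            apply mul_lt_mul_of_pos_right _ hsp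
            linarith
        _ = N := hs
    rw [hLm, mul_pow, ← pow_mul, ← hq]
    exact_mod_cast hlt
  refine ⟨D, W1, Lm, hD1, hW11, hLm1, hsize, ?_⟩
  intro Y hY
  have hY1 : ∀ i, 1 ≤ Y i := fun i => (hY i).1
  have hYX : ∀ i, Y i ≤ X := by
    intro i
    have h2 := (hY i).2
    have h1 : (Y i : ℝ) ≤ (X : ℝ) := by
      rw [← hy0] at h2
      linarith
    exact_mod_cast h1
  have hN4 : (N : ℝ) ^ (κ * lam) * (N : ℝ) ^ (κ * lam / 2) *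
      (N : ℝ) ^ (2 / ((E : ℝ) + 1) + ε / 4 * lam) ≤ (N : ℝ) ^ (ε * lam) := by
    rw [← Real.rpow_add hN0, ← Real.rpow_add hN0]
    apply Real.rpow_le_rpow_of_exponent_le hNR
    linarith [mul_le_mul_of_nonneg_right hκε hlam.le, mul_pos hε hlam]
  rw [← hMA]
  constructor
  · intro t j l i1 i2 i3 T hT
    have h2 := hc1 N Y hN hY1 (D * W1) t j l i1 i2 i3 T (by
      intro a ha
      obtain ⟨g1, g2, d, f1, f2, f3, f4, f5, f6⟩ := hT a ha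
      refine ⟨g1, g2, d, f1, f2, f3, f4, f5, ?_, ?_⟩
      · exact ((Nat.pow_le_pow_left (Nat.mul_le_mul_left _ (hYX _)) 4).trans hbig).trans f6
      · exact ((Nat.pow_le_pow_left (Nat.mul_le_mul_left _ (hYX _)) 4).trans hbig).trans f6)
    have e3 : ((D * W1 : ℕ) : ℝ) ≤ 4 * ((N : ℝ) ^ (κ * lam) * (N : ℝ) ^ (κ * lam / 2)) := by
      push_cast
      calc (D : ℝ) * W1 ≤ (2 * d0) * (2 * w1) := by gcongr
        _ = _ := by rw [hd0, hw1]; ring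
    obtain ⟨R, hR⟩ : ∃ R : ℝ, R = (∏ h ∈ ((Finset.univ.erase t).erase j).erase l, (Y h : ℝ)) *
      Real.sqrt ((Y j : ℝ) * Y l) := ⟨_, rfl⟩
    have hR0 : 0 ≤ R := by rw [hR]; positivity
    rw [← hR]
    have e5 : 0 ≤ R * (N : ℝ) ^ (ε * lam) := by positivity
    calc (T.card : ℝ) ≤ _ := h2
      _ = C1 * ((D * W1 : ℕ) : ℝ) * (R * (N : ℝ) ^ (2 / ((E : ℝ) + 1) + ε / 4 * lam)) := by
          rw [hR]; ring
      _ ≤ C1 * (4 * ((N : ℝ) ^ (κ * lam) * (N : ℝ) ^ (κ * lam / 2))) *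
          (R * (N : ℝ) ^ (2 / ((E : ℝ) + 1) + ε / 4 * lam)) := by gcongr
      _ = K1 * (R * ((N : ℝ) ^ (κ * lam) * (N : ℝ) ^ (κ * lam / 2) *
          (N : ℝ) ^ (2 / ((E : ℝ) + 1) + ε / 4 * lam))) := by rw [hK1]; ring
      _ ≤ K1 * (R * (N : ℝ) ^ (ε * lam)) := by gcongr
      _ ≤ (K1 + K2 + K3) * (R * (N : ℝ) ^ (ε * lam)) :=
          mul_le_mul_of_nonneg_right (by linarith) e5
  · intro t b i1 U hU
    obtain ⟨R, hR⟩ : ∃ R : ℝ, R = ∏ h ∈ (Finset.univ.erase t).erase b, (Y h : ℝ) := ⟨_, rfl⟩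
    have hR0 : 0 ≤ R := by rw [hR]; positivity
    have hX3 : (X : ℝ) ^ (ε / 4) ≤ 3 ^ (ε / 4) * (N : ℝ) ^ (lam * (ε / 4)) := by
      calc (X : ℝ) ^ (ε / 4) ≤ (3 * y0) ^ (ε / 4) :=
            Real.rpow_le_rpow (Nat.cast_nonneg _) hXu (by positivity)
        _ = _ := by
            rw [Real.mul_rpow (by norm_num) (by linarith), hy0, ← Real.rpow_mul hN0.le]
    obtain ⟨U1, hU1⟩ : ∃ U1, U1 = U.filter (fun a => D * D < radM S M3 W2 (a b)) := ⟨_, rfl⟩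
    obtain ⟨U2, hU2⟩ : ∃ U2, U2 = U.filter (fun a => ¬ D * D < radM S M3 W2 (a b)) := ⟨_, rfl⟩
    have hUc : U.card = U1.card + U2.card := by
      rw [hU1, hU2]
      exact (Finset.card_filter_add_card_filter_not (s := U) _).symm
    have hc1' : (U1.card : ℝ) ≤ K2 * (R * (N : ℝ) ^ (ε * lam)) := by
      have h2 := hc2 N X W1 D Y hN hX2 hW1X hD1 hXW1 hNW1 (fun i => ⟨hY1 i, hYX i⟩) (D * W2) hVX
        t b i1 U1 (by
          intro a ha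
          rw [hU1, Finset.mem_filter] at ha
          obtain ⟨haU, hbad⟩ := ha
          obtain ⟨g1, g2, hat, -⟩ := hU a haU
          obtain ⟨d, f1, f2, f3, f4, f5⟩ := bad_pair S MA W1 M3 W2 D (a t) (a b) hMA1 hM3 hW21
            hW12 hD1 (mem_Rset.1 (g1 t)).1 (mem_Rset.1 (g1 b)).1 hat hbad
          refine ⟨g1, g2, hat, d, f1, f3, ?_, ?_, ?_, ?_⟩
          · exact hXκD.trans (by exact_mod_cast f2)
          · intro p hp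
            have h3 := (f5 p hp).2.2.1
            have h4 := (f5 p hp).1.one_lt.le
            calc p ^ M2 ≤ p ^ M3 := Nat.pow_le_pow_right h4 (by omega)
              _ ≤ W2 ^ M3 := Nat.pow_le_pow_left h3 _
              _ ≤ X := hW2M
          · rw [← hM3d]
            exact f4
          · exact fun p hp => (f5 p hp).2.2.2)
      rw [← hR] at h2
      have e1 : ((D * W2 : ℕ) : ℝ) * (D : ℝ) ^ 2 ≤
          2 ^ 4 * ((N : ℝ) ^ (κ2 * lam) * (N : ℝ) ^ (κ * lam * 3)) := by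
        push_cast
        calc (D : ℝ) * W2 * (D : ℝ) ^ 2 ≤ (2 * d0) * (2 * w2) * (2 * d0) ^ 2 := by gcongr
          _ = 2 ^ 4 * (w2 * d0 ^ 3) := by ring
          _ = _ := by
              rw [hw2, hd0, Real.rpow_mul hN0.le (κ * lam) 3]
              congr 2
              exact (Real.rpow_natCast _ 3).symm
      have e2 : (N : ℝ) ^ (κ2 * lam) * (N : ℝ) ^ (κ * lam * 3) * (N : ℝ) ^ (lam * (ε / 4)) *
          (N : ℝ) ^ (ε / 4 * lam) ≤ (N : ℝ) ^ (ε * lam) := by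
        rw [← Real.rpow_add hN0, ← Real.rpow_add hN0, ← Real.rpow_add hN0]
        apply Real.rpow_le_rpow_of_exponent_le hNR
        linarith [mul_le_mul_of_nonneg_right hκε hlam.le,
          mul_le_mul_of_nonneg_right hκ2κ hlam.le, mul_pos hε hlam]
      calc (U1.card : ℝ) ≤ _ := h2
        _ = C2 * (((D * W2 : ℕ) : ℝ) * (D : ℝ) ^ 2) *
            (R * ((X : ℝ) ^ (ε / 4) * (N : ℝ) ^ (ε / 4 * lam))) := by ring
        _ ≤ C2 * (2 ^ 4 * ((N : ℝ) ^ (κ2 * lam) * (N : ℝ) ^ (κ * lam * 3))) *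
            (R * ((3 ^ (ε / 4) * (N : ℝ) ^ (lam * (ε / 4))) * (N : ℝ) ^ (ε / 4 * lam))) := by
            gcongr
        _ = K2 * (R * ((N : ℝ) ^ (κ2 * lam) * (N : ℝ) ^ (κ * lam * 3) *
            (N : ℝ) ^ (lam * (ε / 4)) * (N : ℝ) ^ (ε / 4 * lam))) := by rw [hK2]; ring
        _ ≤ _ := by gcongr
    have hc2' : (U2.card : ℝ) ≤ K3 * (R * (N : ℝ) ^ (ε * lam)) := by
      have h2 := hc3 N X W2 (D * D) Y hN hX2 hW2X (Nat.mul_pos hD1 hD1) hXW2 hNW2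
        (fun i => ⟨hY1 i, hYX i⟩) t b i1 U2 (by
          intro a ha
          rw [hU2, Finset.mem_filter, not_lt] at ha
          obtain ⟨haU, hgood⟩ := ha
          obtain ⟨g1, g2, hat, hns⟩ := hU a haU
          refine ⟨g1, g2, ?_, hgood, ?_⟩
          · calc radM S M3 W2 (a t) ≤ radM S MA W1 (a t) :=
                  radM_mono S (by omega) hW12 (a t)
              _ ≤ D := hat
              _ ≤ D * D := Nat.le_mul_of_pos_left _ hD1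
          · rw [← hLm]
            exact hns)
      rw [← hR] at h2
      have e1 : ((D * D : ℕ) : ℝ) ^ 4 ≤ 2 ^ 8 * (N : ℝ) ^ (κ * lam * 8) := by
        push_cast
        calc ((D : ℝ) * D) ^ 4 ≤ ((2 * d0) * (2 * d0)) ^ 4 := by gcongr
          _ = 2 ^ 8 * d0 ^ 8 := by ring
          _ = _ := by
              rw [hd0, Real.rpow_mul hN0.le (κ * lam) 8]
              congr 1
              exact (Real.rpow_natCast _ 8).symm
      have e2 : (N : ℝ) ^ (κ * lam * 8) * (N : ℝ) ^ (lam * (ε / 4)) *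
          (N : ℝ) ^ (ε / 4 * lam) ≤ (N : ℝ) ^ (ε * lam) := by
        rw [← Real.rpow_add hN0, ← Real.rpow_add hN0]
        apply Real.rpow_le_rpow_of_exponent_le hNR
        linarith [mul_le_mul_of_nonneg_right hκε hlam.le, mul_pos hε hlam]
      calc (U2.card : ℝ) ≤ _ := h2
        _ ≤ C3 * (2 ^ 8 * (N : ℝ) ^ (κ * lam * 8)) *
            (R * ((3 ^ (ε / 4) * (N : ℝ) ^ (lam * (ε / 4))) * (N : ℝ) ^ (ε / 4 * lam))) := by
            gcongr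
        _ = K3 * (R * ((N : ℝ) ^ (κ * lam * 8) * (N : ℝ) ^ (lam * (ε / 4)) *
            (N : ℝ) ^ (ε / 4 * lam))) := by rw [hK3]; ring
        _ ≤ _ := by gcongr
    rw [← hR]
    have e5 : 0 ≤ K1 * (R * (N : ℝ) ^ (ε * lam)) := by
      have : 0 ≤ K1 := by linarith
      positivity
    rw [hUc]
    push_cast
    linarith

end Pool.Agent.Helper93.RS
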