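import Pool.Agent.Helper93.RS.Defs
import Pool.Agent.Helper93.RS.Core

/-!
RS-2 (MP_464c42_nt). `r` values `v i` with a relation between any `n + 2` of them (adaptation of `Helper87/RP/AP.lean`).
(helper93)
-/

set_option autoImplicit false

open Pool.Agent.Helper87.Camp Pool.Agent.Helper10 Pool.Agent.Helper91.CPX

namespace Pool.Agent.Helper93.RS

open Pool.Agent.Helper24.TU Pool.Agent.Helper24.TV Pool.Agent.Helper87.RP

/-- The data of a vector of values: size, radicals, the relations, a large term, small common divisors, few divisible values. -/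
structure Vals {n r : ℕ} (S : Finset ℕ) (ρ : (Fin (n + 2) → Fin r) → Fin (n + 2) → ℤ) (G N : ℕ)
    (Y : Fin r → ℕ) (v : Fin r → ℤ) : Prop where
  ne : ∀ i, v i ≠ 0
  rad : ∀ i, radS S (v i) ≤ Y i
  le : ∀ e, Function.Injective e → ∀ i, (ρ e i * v (e i)).natAbs ≤ N
  sum : ∀ e, Function.Injective e → ∑ i, ρ e i * v (e i) = 0
  big : ∀ e, Function.Injective e → ∃ i, (N : ℤ) ≤ G * |ρ e i * v (e i)|
  gcd : ∀ e, Function.Injective e → ∀ g : ℤ, (∀ i, g ∣ ρ e i * v (e i)) → |g| ≤ G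
  few : ∀ p : ℕ, p.Prime → p ∉ S → ∃ W : Finset (Fin r), r ≤ W.card + n ∧
    ∀ i ∈ W, ¬ (p : ℤ) ∣ v i

private lemma triv (n N N1 : ℕ) (hN : N ≤ N1) (T : Finset (Fin (n + 2) → ℤ))
    (hT : ∀ a ∈ T, ∀ i, (a i).natAbs ≤ N) : (T.card : ℝ) ≤ (2 * (N1 : ℝ) + 1) ^ (n + 2) := by
  classical
  have hsub : T ⊆ Fintype.piFinset fun _ : Fin (n + 2) => Finset.Icc (-(N1 : ℤ)) N1 := by
    intro a ha
    rw [Fintype.mem_piFinset]
    intro i
    have := hT a ha i
    rw [Finset.mem_Icc]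
    omega
  have h1 := Finset.card_le_card hsub
  rw [Fintype.card_piFinset, Finset.prod_const, Finset.card_univ, Fintype.card_fin,
    Int.card_Icc] at h1
  have h2 : ((N1 : ℤ) + 1 - -(N1 : ℤ)).toNat = 2 * N1 + 1 := by omega
  rw [h2] at h1
  exact_mod_cast h1

theorem cop_of' (x : ℤ) (d : ℕ) (hd : d ≠ 0) (h : ∀ p ∈ d.primeFactors, ¬ (p : ℤ) ∣ x) :
    IsCoprime x (d : ℤ) := by
  rw [Int.isCoprime_iff_gcd_eq_one]
  by_contra hne
  obtain ⟨p, hp, hpd⟩ := Nat.exists_prime_and_dvd hne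
  have h1 : (p : ℤ) ∣ x := (Int.natCast_dvd_natCast.2 hpd).trans (Int.gcd_dvd_left ..)
  have h2 : (p : ℤ) ∣ (d : ℤ) := (Int.natCast_dvd_natCast.2 hpd).trans (Int.gcd_dvd_right ..)
  exact h p (Nat.mem_primeFactors.2 ⟨hp, by exact_mod_cast h2, hd⟩) h1

/-- Multiplication by a number without primes outside `S` does not change `radS`. -/
theorem radS_unit (S : Finset ℕ) (c a : ℤ) (hc : c ≠ 0) (ha : a ≠ 0)
    (h : ∀ p : ℕ, p.Prime → p ∉ S → ¬ (p : ℤ) ∣ c) : radS S (c * a) = radS S a := by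
  unfold radS
  congr 1
  ext p
  simp only [Finset.mem_filter, Nat.mem_primeFactors]
  constructor
  · rintro ⟨⟨hp, hd, -⟩, hS⟩
    refine ⟨⟨hp, ?_, Int.natAbs_ne_zero.2 ha⟩, hS⟩
    have h1 : (p : ℤ) ∣ c * a := Int.natCast_dvd.2 hd
    exact Int.natCast_dvd.1
      (((Nat.prime_iff_prime_int.1 hp).dvd_or_dvd h1).resolve_left (h p hp hS))
  · rintro ⟨⟨hp, hd, -⟩, hS⟩
    refine ⟨⟨hp, ?_, Int.natAbs_ne_zero.2 (mul_ne_zero hc ha)⟩, hS⟩
    rw [Int.natAbs_mul]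
    exact hd.mul_left _

/-- Multiplication by a number without primes outside `S` does not change `radM`. -/
theorem radM_unit (S : Finset ℕ) (M W : ℕ) (c a : ℤ) (hc : c ≠ 0) (ha : a ≠ 0)
    (h : ∀ p : ℕ, p.Prime → p ∉ S → ¬ (p : ℤ) ∣ c) : radM S M W (c * a) = radM S M W a := by
  unfold radM
  congr 1
  ext p
  simp only [Finset.mem_filter, Nat.mem_primeFactors]
  constructor
  · rintro ⟨⟨hp, hd, -⟩, hS, hW, hM⟩
    have h1 : (p : ℤ) ∣ c * a := Int.natCast_dvd.2 hd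
    have h2 : ¬ p ∣ c.natAbs := fun h3 => h p hp hS (Int.natCast_dvd.2 h3)
    rw [Int.natAbs_mul] at hM
    exact ⟨⟨hp, Int.natCast_dvd.1
      (((Nat.prime_iff_prime_int.1 hp).dvd_or_dvd h1).resolve_left (h p hp hS)),
      Int.natAbs_ne_zero.2 ha⟩, hS, hW,
      (Nat.Coprime.pow_left M ((Nat.Prime.coprime_iff_not_dvd hp).2 h2)).dvd_of_dvd_mul_left hM⟩
  · rintro ⟨⟨hp, hd, -⟩, hS, hW, hM⟩
    refine ⟨⟨hp, ?_, Int.natAbs_ne_zero.2 (mul_ne_zero hc ha)⟩, hS, hW, ?_⟩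
    · rw [Int.natAbs_mul]
      exact hd.mul_left _
    · rw [Int.natAbs_mul]
      exact hM.mul_left _

/-- The most popular value of `f` on a set of primes. -/
theorem pop {β : Type} [Fintype β] [DecidableEq β] (P : Finset ℕ) (f : ℕ → β) :
    ∃ b : β, ∏ p ∈ P, p ≤ (∏ p ∈ P.filter (fun p => f p = b), p) ^ Fintype.card β := by
  classical
  obtain ⟨b, -, hb⟩ := Finset.exists_max_image (Finset.univ : Finset β)
    (fun b => ∏ p ∈ P.filter (fun p => f p = b), p) ⟨f 0, Finset.mem_univ _⟩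
  refine ⟨b, ?_⟩
  have h1 : ∏ p ∈ P, p = ∏ b : β, ∏ p ∈ P.filter (fun p => f p = b), p :=
    (Finset.prod_fiberwise P f (fun p => p)).symm
  rw [h1, ← Finset.card_univ]
  exact Finset.prod_le_pow_card _ _ _ fun c hc => hb c hc

/-- From a large `radM` of `v t` to a number `d` and many values coprime to `d`. -/
theorem caseV {n r : ℕ} (S : Finset ℕ) (M1 W D P : ℕ) (hP : P = Fintype.card (Finset (Fin r)))
    (v : Fin r → ℤ) (t : Fin r) (hW : 1 ≤ W) (hD : 1 ≤ D)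
    (hfew : ∀ p : ℕ, p.Prime → p ∉ S → ∃ U : Finset (Fin r), r ≤ U.card + n ∧
      ∀ i ∈ U, ¬ (p : ℤ) ∣ v i)
    (h : D < radM S (P * M1) W (v t)) :
    ∃ U : Finset (Fin r), t ∉ U ∧ r ≤ U.card + n ∧ ∃ d : ℕ, 1 ≤ d ∧ d ≤ D * W ∧
      ((d ^ (P * M1) : ℕ) : ℤ) ∣ v t ∧ (∀ p ∈ d.primeFactors, p.Prime ∧ p ∉ S) ∧
      (∀ i ∈ U, ∀ p ∈ d.primeFactors, ¬ (p : ℤ) ∣ v i) ∧ D ^ M1 ≤ d ^ (P * M1) := by
  classical
  obtain ⟨f, hf⟩ : ∃ f : ℕ → Finset (Fin r),
    f = fun p : ℕ => Finset.univ.filter (fun i => ¬ (p : ℤ) ∣ v i) := ⟨_, rfl⟩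
  have hfm : ∀ p i, i ∈ f p ↔ ¬ (p : ℤ) ∣ v i := by
    intro p i
    rw [hf]
    simp
  have hfc : ∀ p : ℕ, p.Prime → p ∉ S → r ≤ (f p).card + n := by
    intro p hp hpS
    obtain ⟨U, h1, h2⟩ := hfew p hp hpS
    have h3 : U ⊆ f p := fun i hi => (hfm p i).2 (h2 i hi)
    have := Finset.card_le_card h3
    omega
  obtain ⟨d', hsq, hd1, hd2, hd3, hd4⟩ := bad_d S _ W D (v t) hW hD h
  have hprod : ∏ p ∈ d'.primeFactors, p = d' := Nat.prod_primeFactors_of_squarefree hsq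
  obtain ⟨b, hb⟩ := pop d'.primeFactors f
  rw [hprod, ← hP] at hb
  obtain ⟨Q, hQ⟩ : ∃ Q, Q = d'.primeFactors.filter (fun p => f p = b) := ⟨_, rfl⟩
  rw [← hQ] at hb
  have hQm : ∀ p ∈ Q, p ∈ d'.primeFactors ∧ f p = b := by
    intro p hp
    rw [hQ, Finset.mem_filter] at hp
    exact hp
  have hQpr : ∀ p ∈ Q, p.Prime := fun p hp => (hd4 p (hQm p hp).1).1
  obtain ⟨d, hd⟩ : ∃ d : ℕ, d = ∏ p ∈ Q, p := ⟨_, rfl⟩
  have hd0 : 1 ≤ d := by rw [hd]; exact Finset.prod_pos fun p hp => (hQpr p hp).pos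
  have hQsub : Q ⊆ d'.primeFactors := fun p hp => (hQm p hp).1
  have hdd : d ∣ d' := by
    rw [hd]
    conv_rhs => rw [← hprod]
    exact Finset.prod_dvd_prod_of_subset _ _ _ hQsub
  have hd'0 : 0 < d' := Nat.pos_of_ne_zero hsq.ne_zero
  have hpf : d.primeFactors = Q := by rw [hd]; exact pf_prod Q hQpr
  rw [← hd] at hb
  have hfin : ((d ^ (P * M1) : ℕ) : ℤ) ∣ v t := by
    have h1 : ((d ^ (P * M1) : ℕ) : ℤ) ∣ (d' : ℤ) ^ (P * M1) := by
      rw [Nat.cast_pow]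
      exact pow_dvd_pow_of_dvd (Int.natCast_dvd_natCast.2 hdd) _
    exact h1.trans hd3
  have hpow : D ^ M1 ≤ d ^ (P * M1) := by
    rw [pow_mul]
    exact Nat.pow_le_pow_left (hd1.trans hb) _
  rcases Q.eq_empty_or_nonempty with h0 | ⟨p, hp⟩
  · -- `d = 1`; take any prime
    have hd1' : d = 1 := by rw [hd, h0, Finset.prod_empty]
    obtain ⟨p0, hp0⟩ : ∃ p0, p0 ∈ (v t).natAbs.primeFactors.filter
        (fun p => p ∉ S ∧ p ≤ W ∧ p ^ (P * M1) ∣ (v t).natAbs) := by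
      by_contra hne
      push Not at hne
      have h2 : radM S (P * M1) W (v t) = 1 := by
        unfold radM
        rw [Finset.eq_empty_of_forall_notMem hne, Finset.prod_empty]
      omega
    rw [Finset.mem_filter, Nat.mem_primeFactors] at hp0
    obtain ⟨⟨g1, g2, -⟩, g3, -, -⟩ := hp0
    refine ⟨f p0, ?_, hfc p0 g1 g3, d, hd0, (Nat.le_of_dvd hd'0 hdd).trans hd2, hfin, ?_, ?_, hpow⟩
    · rw [hfm, not_not]
      exact Int.natCast_dvd.2 g2
    · intro p hp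
      rw [hd1'] at hp
      simp at hp
    · intro i _ p hp
      rw [hd1'] at hp
      simp at hp
  · obtain ⟨g1, g2⟩ := hQm p hp
    obtain ⟨g3, g4, g5, g6⟩ := hd4 p g1
    refine ⟨b, ?_, ?_, d, hd0, (Nat.le_of_dvd hd'0 hdd).trans hd2, hfin, ?_, ?_, hpow⟩
    · rw [← g2, hfm, not_not]
      exact g6
    · rw [← g2]
      exact hfc p g3 g4
    · intro p' hp'
      rw [hpf] at hp'
      have := hd4 p' (hQsub hp')
      exact ⟨this.1, this.2.1⟩
    · intro i hi p' hp'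
      rw [hpf] at hp'
      rw [← (hQm p' hp').2, hfm] at hi
      exact hi

/-- Change of the coefficients in `NoSmallRatio`. -/
theorem nsr_change (x y a b a' b' L : ℤ) (K0 : ℕ) (ha : a ≠ 0) (hb : b ≠ 0) (ha' : a' ≠ 0)
    (hb' : b' ≠ 0) (hL : 0 ≤ L) (hKa : |a| ≤ K0) (hKb : |b| ≤ K0) (hKa' : |a'| ≤ K0)
    (hKb' : |b'| ≤ K0) (h : NoSmallRatio (a * x) (a * x + b * y) (((3 * K0 ^ 2 : ℕ) : ℤ) * L)) :
    NoSmallRatio (a' * x) (a' * x + b' * y) L := by
  intro p q hp hq he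
  have hK : (0 : ℤ) ≤ K0 := Int.natCast_nonneg _
  have e1 : |a * b' * p| ≤ (K0 : ℤ) ^ 2 * L := by
    rw [abs_mul, abs_mul, sq]
    exact mul_le_mul (mul_le_mul hKa hKb' (abs_nonneg _) hK) hp (abs_nonneg _) (mul_nonneg hK hK)
  have hqp : |q - p| ≤ 2 * L := by
    have := abs_sub q p
    linarith
  have e2 : |b * a' * (q - p)| ≤ (K0 : ℤ) ^ 2 * (2 * L) := by
    rw [abs_mul, abs_mul, sq]
    exact mul_le_mul (mul_le_mul hKb hKa' (abs_nonneg _) hK) hqp (abs_nonneg _)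
      (mul_nonneg hK hK)
  have hKL : (0 : ℤ) ≤ (K0 : ℤ) ^ 2 * L := mul_nonneg (sq_nonneg _) hL
  have h3 := h (a * b' * p) (a * b' * p + b * a' * (q - p)) (by push_cast; nlinarith) (by
    have := abs_add_le (a * b' * p) (b * a' * (q - p))
    push_cast
    nlinarith) (by
    linear_combination (a * b) * he)
  obtain ⟨h4, h5⟩ := h3
  have hp0 : p = 0 := by
    rcases mul_eq_zero.1 h4 with h6 | h6
    · exact absurd h6 (mul_ne_zero ha hb')
    · exact h6
  refine ⟨hp0, ?_⟩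
  rw [h4, zero_add] at h5
  rcases mul_eq_zero.1 h5 with h6 | h6
  · exact absurd h6 (mul_ne_zero hb ha')
  · rw [hp0, sub_zero] at h6
    exact h6

/-- The terms of the relation `e`. -/
def terms {n r : ℕ} (ρ : (Fin (n + 2) → Fin r) → Fin (n + 2) → ℤ) (e : Fin (n + 2) → Fin r)
    (v : Fin r → ℤ) : Fin (n + 2) → ℤ := fun i => ρ e i * v (e i)

theorem apV (n r : ℕ) (hn : 1 ≤ n) (ε : ℝ) (hε : 0 < ε) :
    ∃ lam0 : ℝ, 0 < lam0 ∧ ∀ lam : ℝ, 0 < lam → lam ≤ lam0 →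
      ∀ (S : Finset ℕ) (G : ℕ) (ρ : (Fin (n + 2) → Fin r) → Fin (n + 2) → ℤ),
      (∀ e, Function.Injective e → ∀ i, ρ e i ≠ 0 ∧
        ∀ p : ℕ, p.Prime → p ∉ S → ¬ (p : ℤ) ∣ ρ e i) →
      ∃ C : ℝ, 1 ≤ C ∧ ∀ (N : ℕ) (Y : Fin r → ℕ), 1 ≤ N →
      (∀ i, 1 ≤ Y i ∧ (Y i : ℝ) ≤ (N : ℝ) ^ lam) → ∀ Q : ℝ, Sel n r Y Q →
      ∀ T : Finset (Fin r → ℤ), (∀ v ∈ T, Vals S ρ G N Y v) →
      (∀ v ∈ T, ∀ v' ∈ T, ∀ e : Fin (n + 2) → Fin r, Function.Injective e →
        (∀ i, v (e i) = v' (e i)) → v = v') →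
      (T.card : ℝ) ≤ C * (Q * (N : ℝ) ^ (ε * lam)) := by
  classical
  obtain ⟨P, hP⟩ : ∃ P : ℕ, P = Fintype.card (Finset (Fin r)) := ⟨_, rfl⟩
  have hP1 : 1 ≤ P := by rw [hP]; exact Fintype.card_pos
  obtain ⟨M1, lam0, hM1, hlam0, hcore⟩ := apCore n P hn hP1 ε hε
  refine ⟨lam0, hlam0, fun lam hlam hle S G ρ hρ => ?_⟩
  obtain ⟨K0, hK0⟩ : ∃ K0 : ℕ, K0 = ∑ e, ∑ i, (ρ e i).natAbs := ⟨_, rfl⟩
  have hKρ : ∀ e i, |ρ e i| ≤ (K0 : ℤ) := by
    intro e i
    have h1 := Finset.single_le_sum (f := fun i => (ρ e i).natAbs) (fun _ _ => Nat.zero_le _)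
      (Finset.mem_univ i)
    have h2 := Finset.single_le_sum (f := fun e => ∑ i, (ρ e i).natAbs) (fun _ _ => Nat.zero_le _)
      (Finset.mem_univ e)
    rw [← Int.natCast_natAbs]
    rw [hK0]
    exact_mod_cast h1.trans h2
  obtain ⟨C, N1, hC, hmain⟩ := hcore lam hlam hle S G (3 * K0 ^ 2)
  have htriv0 : (1 : ℝ) ≤ (2 * (N1 : ℝ) + 1) ^ (n + 2) :=
    one_le_pow₀ (by have : (0 : ℝ) ≤ N1 := Nat.cast_nonneg N1; linarith)
  obtain ⟨F1, hF1⟩ : ∃ F1 : ℝ, F1 = (P : ℝ) := ⟨_, rfl⟩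
  obtain ⟨F2, hF2⟩ : ∃ F2 : ℝ, F2 = ((n : ℝ) + 2) ^ 2 := ⟨_, rfl⟩
  have hF10 : 0 ≤ F1 := by rw [hF1]; positivity
  have hF20 : 0 ≤ F2 := by rw [hF2]; positivity
  have hC0 : 0 ≤ C := by linarith
  refine ⟨(2 * (N1 : ℝ) + 1) ^ (n + 2) + (C * F1 + C * F2), by
    have := mul_nonneg hC0 hF10
    have := mul_nonneg hC0 hF20
    linarith, ?_⟩
  intro N Y hN hY Q hSel T hT hinj
  obtain ⟨t, hW, e0, i0, he0, hi0, hb⟩ := hSel
  have hNR : (1 : ℝ) ≤ (N : ℝ) := by exact_mod_cast hN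
  have hN0 : (0 : ℝ) < (N : ℝ) := by linarith
  have hY1 : ∀ i, 1 ≤ Y i := fun i => (hY i).1
  have hYR : ∀ i, (1 : ℝ) ≤ Y i := fun i => by exact_mod_cast hY1 i
  have hpow1 : (1 : ℝ) ≤ (N : ℝ) ^ (ε * lam) := Real.one_le_rpow hNR (by positivity)
  -- `Q ≥ 1`
  have hQ1 : 1 ≤ Q := by
    obtain ⟨e, i, j, l, -, -, -, -, -, -, -, h1⟩ := hW (Finset.univ.erase t)
      (Finset.notMem_erase t _) (by
        rw [Finset.card_erase_of_mem (Finset.mem_univ t), Finset.card_univ, Fintype.card_fin]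
        omega)
    refine le_trans ?_ h1
    have h2 : (1 : ℝ) ≤ ∏ h ∈ ((Finset.univ.erase i).erase j).erase l, (Y (e h) : ℝ) := by
      have h3 : 1 ≤ ∏ h ∈ ((Finset.univ.erase i).erase j).erase l, Y (e h) :=
        Finset.one_le_prod' fun h _ => hY1 (e h)
      exact_mod_cast h3
    have h4 : (1 : ℝ) ≤ Real.sqrt ((Y (e j) : ℝ) * Y (e l)) := by
      rw [Real.one_le_sqrt]
      exact one_le_mul_of_one_le_of_one_le (hYR _) (hYR _)
    exact one_le_mul_of_one_le_of_one_le h2 h4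
  have hQN : 0 ≤ Q * (N : ℝ) ^ (ε * lam) := by positivity
  -- the map to the terms of one relation is injective on `T`
  have hmapinj : ∀ e, Function.Injective e → Set.InjOn (terms ρ e) (T : Set (Fin r → ℤ)) := by
    intro e he v hv v' hv' h
    refine hinj v hv v' hv' e he fun i => ?_
    have h1 := congrFun h i
    exact mul_left_cancel₀ (hρ e he i).1 h1
  have hRs : ∀ v ∈ T, ∀ e, Function.Injective e → ∀ i,
      terms ρ e v i ∈ Rset S (Y (e i)) N := by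
    intro v hv e he i
    rw [mem_Rset]
    refine ⟨mul_ne_zero (hρ e he i).1 ((hT v hv).ne _), (hT v hv).le e he i, ?_⟩
    have h1 := radS_unit S (ρ e i) (v (e i)) (hρ e he i).1 ((hT v hv).ne _) (hρ e he i).2
    exact h1.le.trans ((hT v hv).rad _)
  rcases lt_or_ge N N1 with hNN1 | hNN1
  · have h1 := triv n N N1 hNN1.le (T.image (terms ρ e0)) (by
      intro a ha i
      rw [Finset.mem_image] at ha
      obtain ⟨v, hv, rfl⟩ := ha
      exact (hT v hv).le e0 he0 i)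
    rw [Finset.card_image_of_injOn (hmapinj e0 he0)] at h1
    have h3 : (1 : ℝ) ≤ Q * (N : ℝ) ^ (ε * lam) := one_le_mul_of_one_le_of_one_le hQ1 hpow1
    have h4 := mul_nonneg hC0 hF10
    have h5 := mul_nonneg hC0 hF20
    calc (T.card : ℝ) ≤ ((2 * (N1 : ℝ) + 1) ^ (n + 2) + (C * F1 + C * F2)) * 1 := by linarith
      _ ≤ _ := mul_le_mul_of_nonneg_left h3 (by linarith)
  obtain ⟨D, W1, Lm, hD1, hW11, hLm1, hsize, hreg⟩ := hmain N hNN1 hN
  -- splitting
  obtain ⟨TA, hTA⟩ : ∃ TA, TA = T.filter (fun v => D < radM S (P * M1) W1 (v t)) := ⟨_, rfl⟩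
  obtain ⟨TB, hTB⟩ : ∃ TB, TB = T.filter (fun v => ¬ D < radM S (P * M1) W1 (v t)) := ⟨_, rfl⟩
  have hcard : T.card = TA.card + TB.card := by
    rw [hTA, hTB]
    exact (Finset.card_filter_add_card_filter_not (s := T) _).symm
  have hTAT : ∀ v ∈ TA, v ∈ T ∧ D < radM S (P * M1) W1 (v t) := by
    intro v hv
    rw [hTA, Finset.mem_filter] at hv
    exact hv
  have hTBT : ∀ v ∈ TB, v ∈ T ∧ radM S (P * M1) W1 (v t) ≤ D := by
    intro v hv
    rw [hTB, Finset.mem_filter, not_lt] at hv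
    exact hv
  have hcardA : (TA.card : ℝ) ≤ (C * (Q * (N : ℝ) ^ (ε * lam))) * F1 := by
    have hA : ∀ v ∈ TA, ∃ U : Finset (Fin r), t ∉ U ∧ r ≤ U.card + n ∧ ∃ d : ℕ, 1 ≤ d ∧
        d ≤ D * W1 ∧ ((d ^ (P * M1) : ℕ) : ℤ) ∣ v t ∧ (∀ p ∈ d.primeFactors, p.Prime ∧ p ∉ S) ∧
        (∀ i ∈ U, ∀ p ∈ d.primeFactors, ¬ (p : ℤ) ∣ v i) ∧ D ^ M1 ≤ d ^ (P * M1) := by
      intro v hv
      obtain ⟨h1, h2⟩ := hTAT v hv
      exact caseV S M1 W1 D P hP v t hW11 hD1 (hT v h1).few h2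
    choose! Uf hU1 hU2 hU3 using hA
    have h1 : (TA.card : ℝ) ≤ (C * (Q * (N : ℝ) ^ (ε * lam))) *
        ((Finset.univ : Finset (Finset (Fin r))).card : ℝ) := by
      apply card_le_real Uf (fun v _ => Finset.mem_univ _)
      intro U _
      rcases (TA.filter (fun v => Uf v = U)).eq_empty_or_nonempty with h0 | ⟨v1, hv1⟩
      · rw [h0, Finset.card_empty, Nat.cast_zero]
        exact mul_nonneg hC0 hQN
      rw [Finset.mem_filter] at hv1
      obtain ⟨hv1A, e1⟩ := hv1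
      have g1 := hU1 v1 hv1A
      have g2 := hU2 v1 hv1A
      rw [e1] at g1 g2
      obtain ⟨e, i, j, l, he, hij, hil, hjl, hei, hej, hel, hQ⟩ := hW U g1 g2
      have h2 := (hreg (fun h => Y (e h)) (fun h => hY (e h))).1 i j l hij hil hjl
        ((TA.filter (fun v => Uf v = U)).image (terms ρ e)) (by
          intro a ha
          rw [Finset.mem_image] at ha
          obtain ⟨v, hv, rfl⟩ := ha
          rw [Finset.mem_filter] at hv
          obtain ⟨hvA, e2⟩ := hv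
          have hvT := (hTAT v hvA).1
          obtain ⟨d, f1, f2, f3, f4, f5, f6⟩ := hU3 v hvA
          rw [e2] at f5
          have hcop : ∀ h, e h ∈ U → IsCoprime (terms ρ e v h) (d : ℤ) := by
            intro h hh
            refine cop_of' _ _ (by omega) fun p hp hdvd => ?_
            obtain ⟨k1, k2⟩ := f4 p hp
            rcases (Nat.prime_iff_prime_int.1 k1).dvd_or_dvd hdvd with k3 | k3
            · exact (hρ e he h).2 p k1 k2 k3
            · exact f5 (e h) hh p hp k3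
          refine ⟨fun h => hRs v hvT e he h, (hT v hvT).sum e he, d, f1, f2, ?_, hcop j hej,
            hcop l hel, f6⟩
          change _ ∣ ρ e i * v (e i)
          rw [hei]
          exact f3.mul_left _)
      rw [Finset.card_image_of_injOn ((hmapinj e he).mono (by
        intro v hv
        rw [Finset.mem_coe, Finset.mem_filter] at hv
        exact Finset.mem_coe.2 (hTAT v hv.1).1))] at h2
      refine h2.trans (mul_le_mul_of_nonneg_left ?_ hC0)
      exact mul_le_mul_of_nonneg_right hQ (by positivity)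
    refine h1.trans (le_of_eq ?_)
    rw [Finset.card_univ, ← hP, hF1]
  have hcardB : (TB.card : ℝ) ≤ (C * (Q * (N : ℝ) ^ (ε * lam))) * F2 := by
    have hB : ∀ v ∈ TB, ∃ bb : Fin (n + 2) × Fin (n + 2), bb.1 ≠ i0 ∧ bb.2 ≠ i0 ∧ bb.1 ≠ bb.2 ∧
        NoSmallRatio (terms ρ e0 v i0) (terms ρ e0 v i0 + terms ρ e0 v bb.1)
          (((3 * K0 ^ 2 : ℕ) : ℤ) * Lm) ∧
        NoSmallRatio (terms ρ e0 v i0) (terms ρ e0 v i0 + terms ρ e0 v bb.2)
          (((3 * K0 ^ 2 : ℕ) : ℤ) * Lm) := by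
      intro v hv
      obtain ⟨h1, -⟩ := hTBT v hv
      have hK01 : 1 ≤ K0 := by
        have h2 := hKρ e0 i0
        have h3 := abs_pos.2 (hρ e0 he0 i0).1
        omega
      obtain ⟨b, b', g1, g2, g3, g4, g5⟩ := pickT hn (terms ρ e0 v)
        (fun i => mul_ne_zero (hρ e0 he0 i).1 ((hT v h1).ne _)) ((hT v h1).sum e0 he0) (G : ℤ)
        (((3 * K0 ^ 2 : ℕ) : ℤ) * Lm) (N : ℤ) (Int.natCast_nonneg G) (by
          have h2 : (1 : ℤ) ≤ ((3 * K0 ^ 2 : ℕ) : ℤ) := by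
            have : 1 ≤ 3 * K0 ^ 2 := by nlinarith
            exact_mod_cast this
          nlinarith) ((hT v h1).gcd e0 he0) ((hT v h1).big e0 he0) hsize i0
      exact ⟨(b, b'), g1.symm, g2.symm, g3, g4, g5⟩
    choose! bf hb1 hb2 hb3 hb4 hb5 using hB
    have h1 : (TB.card : ℝ) ≤ (C * (Q * (N : ℝ) ^ (ε * lam))) *
        ((Finset.univ : Finset (Fin (n + 2) × Fin (n + 2))).card : ℝ) := by
      apply card_le_real bf (fun v _ => Finset.mem_univ _)
      intro bb _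
      rcases (TB.filter (fun v => bf v = bb)).eq_empty_or_nonempty with h0 | ⟨v1, hv1⟩
      · rw [h0, Finset.card_empty, Nat.cast_zero]
        exact mul_nonneg hC0 hQN
      rw [Finset.mem_filter] at hv1
      obtain ⟨hv1B, e1⟩ := hv1
      have g1 := hb1 v1 hv1B
      have g2 := hb2 v1 hv1B
      have g3 := hb3 v1 hv1B
      rw [e1] at g1 g2 g3
      obtain ⟨c, hc, e', i', j', he', hij', hei', hej', hQ⟩ := hb bb.1 bb.2 g1 g2 g3
      have h2 := (hreg (fun h => Y (e' h)) (fun h => hY (e' h))).2 i' j' hij'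
        ((TB.filter (fun v => bf v = bb)).image (terms ρ e')) (by
          intro a ha
          rw [Finset.mem_image] at ha
          obtain ⟨v, hv, rfl⟩ := ha
          rw [Finset.mem_filter] at hv
          obtain ⟨hvB, e2⟩ := hv
          obtain ⟨hvT, hrad⟩ := hTBT v hvB
          have hns : NoSmallRatio (terms ρ e0 v i0) (terms ρ e0 v i0 + terms ρ e0 v c)
              (((3 * K0 ^ 2 : ℕ) : ℤ) * Lm) := by
            rcases hc with rfl | rfl
            · have := hb4 v hvB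
              rw [e2] at this
              exact this
            · have := hb5 v hvB
              rw [e2] at this
              exact this
          refine ⟨fun h => hRs v hvT e' he' h, (hT v hvT).sum e' he', ?_, ?_⟩
          · have h3 := radM_unit S (P * M1) W1 (ρ e' i') (v (e' i')) (hρ e' he' i').1
              ((hT v hvT).ne _) (hρ e' he' i').2
            change radM S (P * M1) W1 (ρ e' i' * v (e' i')) ≤ D
            rw [h3, hei']
            exact hrad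
          · have h3 := nsr_change (v t) (v (e0 c)) (ρ e0 i0) (ρ e0 c) (ρ e' i') (ρ e' j') Lm K0
              (hρ e0 he0 i0).1 (hρ e0 he0 c).1 (hρ e' he' i').1 (hρ e' he' j').1 (by omega)
              (hKρ _ _) (hKρ _ _) (hKρ _ _) (hKρ _ _) (by
                have h4 : terms ρ e0 v i0 = ρ e0 i0 * v t := by
                  change ρ e0 i0 * v (e0 i0) = _
                  rw [hi0]
                rw [h4] at hns
                exact hns)
            have h4 : terms ρ e' v i' = ρ e' i' * v t := by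
              change ρ e' i' * v (e' i') = _
              rw [hei']
            have h5 : terms ρ e' v j' = ρ e' j' * v (e0 c) := by
              change ρ e' j' * v (e' j') = _
              rw [hej']
            rw [h4, h5]
            exact h3)
      rw [Finset.card_image_of_injOn ((hmapinj e' he').mono (by
        intro v hv
        rw [Finset.mem_coe, Finset.mem_filter] at hv
        exact Finset.mem_coe.2 (hTBT v hv.1).1))] at h2
      refine h2.trans (mul_le_mul_of_nonneg_left ?_ hC0)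
      exact mul_le_mul_of_nonneg_right hQ (by positivity)
    refine h1.trans (le_of_eq ?_)
    rw [Finset.card_univ, Fintype.card_prod, Fintype.card_fin, hF2]
    push_cast
    ring
  have h5 : (0 : ℝ) ≤ (2 * (N1 : ℝ) + 1) ^ (n + 2) * (Q * (N : ℝ) ^ (ε * lam)) :=
    mul_nonneg (by linarith) hQN
  rw [hcard]
  push_cast
  linarith

end Pool.Agent.Helper93.RS
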