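import Pool.Agent.Helper93.RS.Defs

/-!
RS-1 (MP_464c42_nt), Mathlib only. `n + 2 ≤ r = n + k ≤ 2 n`. (helper10)

Proof. Sort `Y` (`Tuple.sort`), positions `0, …, r - 1`, `y = log Y ≥ 0` increasing, `t` = the last position. Abel summation (induction on `r`): if
`c : Fin r → ℝ` has all tail sums `∑_{i ≥ z} c i ≤ e (r - z)` then `∑ c i y i ≤ e ∑ y i`.
(1) `j < l` the two largest positions of `W`, the other `n - 1` forms: the smallest positions besides `j, l, t`. With `a` = number of `j, l`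
that are `< z` the tail sum at `z` is at most `max (n - z + a / 2) (1 - a / 2)`.
(2) `e` = the `n + 2` largest positions; of two others the larger one has position `b ≥ r - n - 1`; `e'` = `t`, `b` and the
`n` smallest positions besides `b, t`. The tail sum is at most `max (n - z + [b < z]) 0`.
-/

set_option autoImplicit false

namespace Pool.Agent.Helper93.RS

open Finset

/-- Abel summation -/
lemma abel : ∀ (r : ℕ) (u y : Fin (r + 1) → ℝ), Monotone y →
    (∀ z : Fin (r + 1), z ≠ 0 → 0 ≤ ∑ i, if z ≤ i then u i else 0) →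
    y 0 * ∑ i, u i ≤ ∑ i, u i * y i := by
  intro r
  induction r with
  | zero =>
    intro u y _ _
    simp [mul_comm]
  | succ r ih =>
    intro u y hy hu
    have h1 := ih (fun i => u i.succ) (fun i => y i.succ) (fun i j hij => hy (Fin.succ_le_succ_iff.2 hij)) (by
      intro z hz
      have h2 := hu z.succ (Fin.succ_ne_zero z)
      rw [Fin.sum_univ_succ] at h2
      have h3 : ¬ z.succ ≤ (0 : Fin (r + 2)) := by
        rw [not_le]
        exact Fin.succ_pos z
      rw [if_neg h3, zero_add] at h2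
      refine h2.trans (le_of_eq (Finset.sum_congr rfl fun i _ => ?_))
      by_cases h4 : z ≤ i
      · rw [if_pos h4, if_pos (Fin.succ_le_succ_iff.2 h4)]
      · rw [if_neg h4, if_neg fun h5 => h4 (Fin.succ_le_succ_iff.1 h5)])
    have h5 : 0 ≤ ∑ i : Fin (r + 1), u i.succ := by
      have h6 := hu (Fin.succ 0) (Fin.succ_ne_zero 0)
      rw [Fin.sum_univ_succ] at h6
      have h3 : ¬ (Fin.succ (0 : Fin (r + 1))) ≤ (0 : Fin (r + 2)) := by
        rw [not_le]
        exact Fin.succ_pos _
      rw [if_neg h3, zero_add] at h6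
      refine h6.trans (le_of_eq (Finset.sum_congr rfl fun i _ => ?_))
      rw [if_pos (Fin.succ_le_succ_iff.2 (Fin.zero_le i))]
    have h7 : y 0 ≤ y (Fin.succ 0) := hy (Fin.zero_le _)
    rw [Fin.sum_univ_succ, Fin.sum_univ_succ (fun i => u i * y i)]
    have h8 : y 0 * ∑ i : Fin (r + 1), u i.succ ≤ y (Fin.succ 0) * ∑ i : Fin (r + 1), u i.succ :=
      mul_le_mul_of_nonneg_right h7 h5
    have h9 : y (Fin.succ 0) * ∑ i : Fin (r + 1), u i.succ ≤ ∑ i : Fin (r + 1), u i.succ * y i.succ := h1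
    nlinarith

lemma sum_tail (r : ℕ) (z : Fin (r + 1)) (e : ℝ) :
    (∑ i : Fin (r + 1), if z ≤ i then e else 0) = e * ((r : ℝ) + 1 - (z : ℕ)) := by
  rw [← Finset.sum_filter, Finset.sum_const, nsmul_eq_mul]
  have h1 : (Finset.univ.filter fun i : Fin (r + 1) => z ≤ i) = Finset.Ici z := by
    ext i
    simp
  rw [h1, Fin.card_Ici, Nat.cast_sub (by have := z.isLt; omega)]
  push_cast
  ring

/-- weighted sums of a monotone function -/
lemma weighted (r : ℕ) (c y : Fin (r + 1) → ℝ) (e : ℝ) (hy : Monotone y) (hy0 : 0 ≤ y 0)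
    (hc : ∀ z : Fin (r + 1), (∑ i, if z ≤ i then c i else 0) ≤ e * ((r : ℝ) + 1 - (z : ℕ))) :
    ∑ i, c i * y i ≤ e * ∑ i, y i := by
  have hu : ∀ z : Fin (r + 1), 0 ≤ ∑ i, if z ≤ i then (e - c i) else 0 := by
    intro z
    have h1 : (∑ i, if z ≤ i then (e - c i) else 0) =
        (∑ i : Fin (r + 1), if z ≤ i then e else 0) - ∑ i, if z ≤ i then c i else 0 := by
      rw [← Finset.sum_sub_distrib]
      refine Finset.sum_congr rfl fun i _ => ?_
      split_ifs <;> ring
    rw [h1, sum_tail]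
    linarith [hc z]
  have h2 := abel r (fun i => e - c i) y hy fun z _ => hu z
  have h3 : 0 ≤ ∑ i, (e - c i) := by
    have h4 := hu 0
    simpa using h4
  have h5 : 0 ≤ y 0 * ∑ i, (e - c i) := mul_nonneg hy0 h3
  have h6 : ∑ i, (e - c i) * y i = e * ∑ i, y i - ∑ i, c i * y i := by
    rw [Finset.mul_sum, ← Finset.sum_sub_distrib]
    refine Finset.sum_congr rfl fun i _ => ?_
    ring
  linarith

/-- the smallest elements of a set -/
lemma exists_init {α : Type*} [LinearOrder α] (S : Finset α) (m : ℕ) (hm : m ≤ S.card) :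
    ∃ F ⊆ S, F.card = m ∧ ∀ a ∈ F, ∀ b ∈ S, b ∉ F → a < b := by
  induction m with
  | zero => exact ⟨∅, Finset.empty_subset _, rfl, by simp⟩
  | succ m ih =>
    obtain ⟨F, hFS, hFm, hF⟩ := ih (by omega)
    have hne : (S \ F).Nonempty := by
      rw [← Finset.card_pos, Finset.card_sdiff_of_subset hFS]
      omega
    have hx := Finset.min'_mem _ hne
    obtain ⟨x, hxe⟩ : ∃ x, x = (S \ F).min' hne := ⟨_, rfl⟩
    rw [← hxe, Finset.mem_sdiff] at hx
    refine ⟨insert x F, Finset.insert_subset hx.1 hFS, by rw [Finset.card_insert_of_notMem hx.2, hFm], ?_⟩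
    intro a ha b hb hbF
    rw [Finset.mem_insert, not_or] at hbF
    rcases Finset.mem_insert.1 ha with rfl | ha
    · have h1 : a ≤ b := by
        rw [hxe]
        exact Finset.min'_le _ _ (Finset.mem_sdiff.2 ⟨hb, hbF.2⟩)
      exact lt_of_le_of_ne h1 (Ne.symm hbF.1)
    · exact hF a ha b hb hbF.2

lemma init_count {r : ℕ} (X F : Finset (Fin r)) (hinit : ∀ a ∈ F, ∀ b ∈ Xᶜ, b ∉ F → a < b) (z : Fin r) :
    (F.filter fun i => z ≤ i).card = 0 ∨
      (F.filter fun i => z ≤ i).card + (z : ℕ) ≤ F.card + (X.filter fun i => i < z).card := by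
  by_cases h : ∃ a ∈ F, z ≤ a
  · right
    obtain ⟨a, ha, hza⟩ := h
    have h1 : Finset.Iio z ⊆ (X.filter fun i => i < z) ∪ (F.filter fun i => ¬ z ≤ i) := by
      intro b hb
      rw [Finset.mem_Iio] at hb
      rw [Finset.mem_union, Finset.mem_filter, Finset.mem_filter]
      by_cases hbX : b ∈ X
      · exact Or.inl ⟨hbX, hb⟩
      · right
        refine ⟨?_, not_le.2 hb⟩
        by_contra hbF
        have h2 := hinit a ha b (Finset.mem_compl.2 hbX) hbF
        exact absurd (lt_of_le_of_lt hza (h2.trans hb)) (lt_irrefl _)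
    have h2 := Finset.card_le_card h1
    rw [Fin.card_Iio] at h2
    have h3 := Finset.card_union_le (X.filter fun i => i < z) (F.filter fun i => ¬ z ≤ i)
    have h4 := Finset.card_filter_add_card_filter_not (s := F) (fun i => z ≤ i)
    omega
  · left
    rw [Finset.card_eq_zero, Finset.filter_eq_empty_iff]
    intro i hi hz
    exact h ⟨i, hi, hz⟩

/-- enumeration of a set -/
lemma exists_enum {r N : ℕ} (E : Finset (Fin r)) (h : E.card = N) :
    ∃ e : Fin N → Fin r, Function.Injective e ∧ Finset.univ.image e = E := by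
  refine ⟨fun i => ((Finset.equivFinOfCardEq h).symm i : Fin r), ?_, ?_⟩
  · intro i i' hii
    exact (Finset.equivFinOfCardEq h).symm.injective (Subtype.ext hii)
  · ext x
    simp only [Finset.mem_image, Finset.mem_univ, true_and]
    constructor
    · rintro ⟨i, rfl⟩
      exact ((Finset.equivFinOfCardEq h).symm i).2
    · intro hx
      exact ⟨Finset.equivFinOfCardEq h ⟨x, hx⟩, by simp⟩

lemma prod_erase_inj {α β : Type*} [Fintype α] [DecidableEq α] [DecidableEq β] {e : α → β} (he : Function.Injective e) (A : Finset α)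
    (f : β → ℝ) : ∏ h ∈ A, f (e h) = ∏ x ∈ A.image e, f x :=
  (Finset.prod_image fun _ _ _ _ hxy => he hxy).symm

lemma exS_le_one {n r : ℕ} (hn : 1 ≤ n) (hr : n + 2 ≤ r) : exS n r ≤ 1 := by
  have hn' : (1 : ℝ) ≤ n := by exact_mod_cast hn
  have hr' : (n : ℝ) + 2 ≤ r := by exact_mod_cast hr
  unfold exS
  refine max_le ?_ ?_
  · rw [div_le_one (by linarith)]
    linarith
  · rw [div_le_one (by linarith)]
    linarith

lemma exS_one {n r : ℕ} (hr : n + 2 ≤ r) : (n : ℝ) ≤ exS n r * r := by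
  have hr' : (n : ℝ) + 2 ≤ r := by exact_mod_cast hr
  have hn0 : (0 : ℝ) ≤ n := Nat.cast_nonneg n
  have h := le_max_left ((n : ℝ) / r) ((2 * (n : ℝ) + 1 - r) / n)
  rwa [div_le_iff₀ (by linarith)] at h

lemma exS_two {n r : ℕ} (hn : 1 ≤ n) : 2 * (n : ℝ) + 1 - r ≤ exS n r * n := by
  have hn' : (1 : ℝ) ≤ n := by exact_mod_cast hn
  have h := le_max_right ((n : ℝ) / r) ((2 * (n : ℝ) + 1 - r) / n)
  rwa [div_le_iff₀ (by linarith)] at h

/-- the middle inequality -/
lemma exS_mid {n r : ℕ} (hn : 1 ≤ n) (hr : n + 2 ≤ r) (hr2 : r ≤ 2 * n) :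
    2 * (n : ℝ) - r + 3 / 2 ≤ exS n r * ((n : ℝ) + 1) := by
  have hn' : (1 : ℝ) ≤ n := by exact_mod_cast hn
  have hr' : (n : ℝ) + 2 ≤ r := by exact_mod_cast hr
  have hr2' : (r : ℝ) ≤ 2 * n := by exact_mod_cast hr2
  have h1 := exS_one (n := n) hr
  have h2 := exS_two (n := n) (r := r) hn
  obtain ⟨e, he⟩ : ∃ e, e = exS n r := ⟨_, rfl⟩
  rw [← he] at h1 h2 ⊢
  rcases Nat.lt_or_ge (3 * n + 2) (2 * r) with h3 | h3
  · -- `n < 2 k - 2`
    have h3' : (3 * (n : ℝ) + 3) ≤ 2 * r := by exact_mod_cast h3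
    have hr0 : (0 : ℝ) < r := by linarith
    have h4 : (2 * (n : ℝ) - r + 3 / 2) * r ≤ (n : ℝ) * ((n : ℝ) + 1) := by
      obtain ⟨k, hk⟩ : ∃ k : ℝ, k = (r : ℝ) - n := ⟨_, rfl⟩
      have hrk : (r : ℝ) = n + k := by linarith
      rw [hrk] at h3' hr' ⊢
      have hk2 : 2 ≤ k := by linarith
      have hnk : (n : ℝ) ≤ 2 * k - 3 := by linarith
      have h5 : 0 ≤ (2 * k - 3) * (k - 1) := mul_nonneg (by linarith) (by linarith)
      nlinarith
    have h5 : (n : ℝ) * ((n : ℝ) + 1) ≤ (e * r) * ((n : ℝ) + 1) :=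
      mul_le_mul_of_nonneg_right h1 (by linarith)
    have h6 : (2 * (n : ℝ) - r + 3 / 2) * r ≤ (e * ((n : ℝ) + 1)) * r := by
      calc (2 * (n : ℝ) - r + 3 / 2) * r ≤ (n : ℝ) * ((n : ℝ) + 1) := h4
        _ ≤ (e * r) * ((n : ℝ) + 1) := h5
        _ = _ := by ring
    exact le_of_mul_le_mul_right h6 hr0
  · -- `2 k - 2 ≤ n`
    have h3' : 2 * (r : ℝ) ≤ 3 * n + 2 := by exact_mod_cast h3
    have h4 : 1 / 2 ≤ e := by
      by_contra hcon
      push Not at hcon
      nlinarith
    linarith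

lemma exS_half {n r : ℕ} (hr : n + 2 ≤ r) (hr2 : r ≤ 2 * n) : 1 / 2 ≤ exS n r := by
  have hr' : (n : ℝ) + 2 ≤ r := by exact_mod_cast hr
  have hr2' : (r : ℝ) ≤ 2 * n := by exact_mod_cast hr2
  have hn0 : (0 : ℝ) ≤ n := Nat.cast_nonneg n
  have h1 := exS_one (n := n) hr
  by_contra hcon
  push Not at hcon
  nlinarith

/-- the products in terms of the counts of positions -/
lemma bridge (r : ℕ) (Y : Fin (r + 1) → ℕ) (hY : ∀ i, 1 ≤ Y i) (σ : Equiv.Perm (Fin (r + 1)))
    (hσ : Monotone fun p => Y (σ p)) (e : ℝ) (F G : Finset (Fin (r + 1)))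
    (hc : ∀ z : Fin (r + 1), ((F.filter fun i => z ≤ i).card : ℝ) + ((G.filter fun i => z ≤ i).card : ℝ) / 2 ≤
      e * ((r : ℝ) + 1 - (z : ℕ))) :
    (∏ p ∈ F, (Y (σ p) : ℝ)) * Real.sqrt (∏ p ∈ G, (Y (σ p) : ℝ)) ≤ (∏ i, (Y i : ℝ)) ^ e := by
  have hpos : ∀ i, (0 : ℝ) < Y i := fun i => by
    have := hY i
    exact_mod_cast this
  have h1 := weighted r (fun p => (if p ∈ F then 1 else 0) + (if p ∈ G then 1 / 2 else 0))
    (fun p => Real.log (Y (σ p))) e
    (fun p q hpq => Real.log_le_log (hpos _) (by exact_mod_cast hσ hpq))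
    (Real.log_nonneg (by exact_mod_cast hY _))
    (by
      intro z
      refine le_trans (le_of_eq ?_) (hc z)
      have h2 : ((F.filter fun i => z ≤ i).card : ℝ) = ∑ i, if i ∈ F then (if z ≤ i then (1 : ℝ) else 0) else 0 := by
        rw [Finset.natCast_card_filter, Finset.sum_ite_mem, Finset.univ_inter]
      have h3 : ((G.filter fun i => z ≤ i).card : ℝ) = ∑ i, if i ∈ G then (if z ≤ i then (1 : ℝ) else 0) else 0 := by
        rw [Finset.natCast_card_filter, Finset.sum_ite_mem, Finset.univ_inter]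
      rw [h2, h3, Finset.sum_div, ← Finset.sum_add_distrib]
      refine Finset.sum_congr rfl fun i _ => ?_
      split_ifs <;> norm_num)
  have hF : 0 < ∏ p ∈ F, (Y (σ p) : ℝ) := Finset.prod_pos fun p _ => hpos _
  have hG : 0 < ∏ p ∈ G, (Y (σ p) : ℝ) := Finset.prod_pos fun p _ => hpos _
  have hA : 0 < ∏ i, (Y i : ℝ) := Finset.prod_pos fun p _ => hpos _
  rw [← Real.log_le_log_iff (mul_pos hF (Real.sqrt_pos.2 hG)) (Real.rpow_pos_of_pos hA e),
    Real.log_mul hF.ne' (Real.sqrt_pos.2 hG).ne', Real.log_sqrt hG.le, Real.log_rpow hA,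
    Real.log_prod fun p _ => (hpos _).ne', Real.log_prod fun p _ => (hpos _).ne',
    Real.log_prod fun p _ => (hpos _).ne']
  have h4 : ∑ i, Real.log (Y i : ℝ) = ∑ p, Real.log (Y (σ p) : ℝ) :=
    (Equiv.sum_comp σ fun i => Real.log (Y i : ℝ)).symm
  rw [h4]
  refine le_trans (le_of_eq ?_) h1
  have h5 : ∑ p ∈ F, Real.log (Y (σ p) : ℝ) = ∑ p, if p ∈ F then Real.log (Y (σ p) : ℝ) else 0 := by
    rw [Finset.sum_ite_mem, Finset.univ_inter]
  have h6 : ∑ p ∈ G, Real.log (Y (σ p) : ℝ) = ∑ p, if p ∈ G then Real.log (Y (σ p) : ℝ) else 0 := by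
    rw [Finset.sum_ite_mem, Finset.univ_inter]
  rw [h5, h6, Finset.sum_div, ← Finset.sum_add_distrib]
  refine Finset.sum_congr rfl fun p _ => ?_
  split_ifs <;> ring

/-- part (1) on positions -/
lemma part_one (n r : ℕ) (hn : 1 ≤ n) (hr : n + 2 ≤ r + 1) (hr2 : r + 1 ≤ 2 * n) (V : Finset (Fin (r + 1)))
    (hV : Fin.last r ∉ V) (hVc : r + 1 ≤ V.card + n) :
    ∃ j ∈ V, ∃ l ∈ V, j ≠ l ∧ j ≠ Fin.last r ∧ l ≠ Fin.last r ∧ ∃ F : Finset (Fin (r + 1)), F.card + 1 = n ∧ j ∉ F ∧ l ∉ F ∧
      Fin.last r ∉ F ∧ ∀ z : Fin (r + 1), ((F.filter fun i => z ≤ i).card : ℝ) +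
        ((({j, l} : Finset (Fin (r + 1))).filter fun i => z ≤ i).card : ℝ) / 2 ≤
        exS n (r + 1) * ((r : ℝ) + 1 - (z : ℕ)) := by
  have hVn : V.Nonempty := by
    rw [← Finset.card_pos]
    omega
  obtain ⟨l, hl⟩ : ∃ l, l = V.max' hVn := ⟨_, rfl⟩
  have hlV : l ∈ V := by
    rw [hl]
    exact Finset.max'_mem _ _
  have hVe : (V.erase l).card = V.card - 1 := Finset.card_erase_of_mem hlV
  have hVn2 : (V.erase l).Nonempty := by
    rw [← Finset.card_pos]
    omega
  obtain ⟨j, hj⟩ : ∃ j, j = (V.erase l).max' hVn2 := ⟨_, rfl⟩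
  have hjV' : j ∈ V.erase l := by
    rw [hj]
    exact Finset.max'_mem _ _
  have hjV : j ∈ V := Finset.mem_of_mem_erase hjV'
  have hjl : j ≠ l := Finset.ne_of_mem_erase hjV'
  have hjl' : j < l := by
    refine lt_of_le_of_ne ?_ hjl
    rw [hl]
    exact Finset.le_max' _ _ hjV
  have hjlast : j ≠ Fin.last r := fun h => hV (h ▸ hjV)
  have hllast : l ≠ Fin.last r := fun h => hV (h ▸ hlV)
  have hllt : l < Fin.last r := lt_of_le_of_ne (Fin.le_last l) hllast
  have hlc : V.card ≤ (l : ℕ) + 1 := by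
    have h1 : V ⊆ Finset.Iic l := by
      intro x hx
      rw [Finset.mem_Iic, hl]
      exact Finset.le_max' _ _ hx
    have h2 := Finset.card_le_card h1
    rwa [Fin.card_Iic] at h2
  have hjc : V.card ≤ (j : ℕ) + 2 := by
    have h1 : V.erase l ⊆ Finset.Iic j := by
      intro x hx
      rw [Finset.mem_Iic, hj]
      exact Finset.le_max' _ _ hx
    have h2 := Finset.card_le_card h1
    rw [Fin.card_Iic] at h2
    omega
  have hXc : (({j, l, Fin.last r} : Finset (Fin (r + 1)))).card = 3 := by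
    rw [Finset.card_insert_of_notMem, Finset.card_pair hllast]
    rw [Finset.mem_insert, Finset.mem_singleton]
    push Not
    exact ⟨hjl, hjlast⟩
  obtain ⟨F, hFX, hFc, hF⟩ := exists_init ((({j, l, Fin.last r} : Finset (Fin (r + 1))))ᶜ) (n - 1) (by
    rw [Finset.card_compl, hXc, Fintype.card_fin]
    omega)
  have hFn : ∀ x ∈ F, x ≠ j ∧ x ≠ l ∧ x ≠ Fin.last r := by
    intro x hx
    have h1 := hFX hx
    simp only [Finset.mem_compl, Finset.mem_insert, Finset.mem_singleton, not_or] at h1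
    exact h1
  refine ⟨j, hjV, l, hlV, hjl, hjlast, hllast, F, by omega, fun h => (hFn _ h).1 rfl, fun h => (hFn _ h).2.1 rfl,
    fun h => (hFn _ h).2.2 rfl, ?_⟩
  intro z
  have hz := z.isLt
  have hR : ((r + 1 : ℕ) : ℝ) = (r : ℝ) + 1 := by push_cast; ring
  have he1 := exS_le_one (n := n) (r := r + 1) hn hr
  have heh := exS_half (n := n) (r := r + 1) hr hr2
  have hone := exS_one (n := n) (r := r + 1) hr
  have htwo := exS_two (n := n) (r := r + 1) hn
  have hmid := exS_mid (n := n) (r := r + 1) hn hr hr2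
  rw [hR] at hone htwo hmid
  obtain ⟨e, he⟩ : ∃ e, e = exS n (r + 1) := ⟨_, rfl⟩
  rw [← he] at he1 heh hone htwo hmid ⊢
  have hzr : ((z : ℕ) : ℝ) + 1 ≤ (r : ℝ) + 1 := by exact_mod_cast hz
  have hz0 : (0 : ℝ) ≤ ((z : ℕ) : ℝ) := Nat.cast_nonneg _
  have hnlast : ¬ Fin.last r < z := not_lt.2 (Fin.le_last z)
  have hcount := init_count ({j, l, Fin.last r} : Finset (Fin (r + 1))) F hF z
  have hFc' : F.card + 1 = n := by omega
  have hFcr : (F.card : ℝ) + 1 = n := by exact_mod_cast hFc'
  rcases le_or_gt z j with h1 | h1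
  · -- `z ≤ j`
    have h2 : z ≤ l := h1.trans hjl'.le
    have hG : ((({j, l} : Finset (Fin (r + 1))).filter fun i => z ≤ i).card) = 2 := by
      rw [Finset.filter_true_of_mem, Finset.card_pair hjl]
      intro i hi
      rw [Finset.mem_insert, Finset.mem_singleton] at hi
      rcases hi with rfl | rfl
      · exact h1
      · exact h2
    have hXf : ((({j, l, Fin.last r} : Finset (Fin (r + 1))).filter fun i => i < z).card) = 0 := by
      rw [Finset.card_eq_zero, Finset.filter_eq_empty_iff]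
      intro i hi
      simp only [Finset.mem_insert, Finset.mem_singleton] at hi
      rcases hi with rfl | rfl | rfl
      · exact not_lt.2 h1
      · exact not_lt.2 h2
      · exact hnlast
    rw [hG]
    rw [hXf] at hcount
    push_cast
    rcases hcount with h3 | h3
    · rw [h3]
      have h4 : (z : ℕ) + 2 ≤ r := by
        have h5 : (z : ℕ) ≤ j := h1
        have h6 : (j : ℕ) < l := hjl'
        have h7 : (l : ℕ) < r := hllt
        omega
      have h4' : ((z : ℕ) : ℝ) + 2 ≤ r := by exact_mod_cast h4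
      push_cast
      nlinarith
    · have h3' : ((F.filter fun i => z ≤ i).card : ℝ) + ((z : ℕ) : ℝ) ≤ F.card := by exact_mod_cast h3
      have h4 : e * ((z : ℕ) : ℝ) ≤ ((z : ℕ) : ℝ) := mul_le_of_le_one_left hz0 he1
      nlinarith
  · rcases le_or_gt z l with h2 | h2
    · -- `j < z ≤ l`
      have hG : ((({j, l} : Finset (Fin (r + 1))).filter fun i => z ≤ i).card) = 1 := by
        have : (({j, l} : Finset (Fin (r + 1))).filter fun i => z ≤ i) = {l} := by
          rw [Finset.filter_insert, if_neg (not_le.2 h1), Finset.filter_singleton, if_pos h2]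
        rw [this, Finset.card_singleton]
      have hXf : ((({j, l, Fin.last r} : Finset (Fin (r + 1))).filter fun i => i < z).card) = 1 := by
        have : (({j, l, Fin.last r} : Finset (Fin (r + 1))).filter fun i => i < z) = {j} := by
          rw [Finset.filter_insert, if_pos h1, Finset.filter_insert, if_neg (not_lt.2 h2), Finset.filter_singleton,
            if_neg hnlast]
          rfl
        rw [this, Finset.card_singleton]
      rw [hG]
      rw [hXf] at hcount
      push_cast
      rcases hcount with h3 | h3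
      · rw [h3]
        have h4 : (z : ℕ) + 1 ≤ r := by
          have h5 : (z : ℕ) ≤ l := h2
          have h7 : (l : ℕ) < r := hllt
          omega
        have h4' : ((z : ℕ) : ℝ) + 1 ≤ r := by exact_mod_cast h4
        push_cast
        nlinarith
      · have h3' : ((F.filter fun i => z ≤ i).card : ℝ) + ((z : ℕ) : ℝ) ≤ F.card + 1 := by exact_mod_cast h3
        have h4 : r ≤ (z : ℕ) + n := by
          have h5 : (j : ℕ) < z := h1
          omega
        have h4' : (r : ℝ) ≤ ((z : ℕ) : ℝ) + n := by exact_mod_cast h4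
        have h5 : e * (((z : ℕ) : ℝ) + n - r) ≤ ((z : ℕ) : ℝ) + n - r := mul_le_of_le_one_left (by linarith) he1
        nlinarith
    · -- `l < z`
      have hG : ((({j, l} : Finset (Fin (r + 1))).filter fun i => z ≤ i).card) = 0 := by
        rw [Finset.card_eq_zero, Finset.filter_eq_empty_iff]
        intro i hi
        rw [Finset.mem_insert, Finset.mem_singleton] at hi
        rcases hi with rfl | rfl
        · exact not_le.2 h1
        · exact not_le.2 h2
      have hXf : ((({j, l, Fin.last r} : Finset (Fin (r + 1))).filter fun i => i < z).card) = 2 := by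
        have : (({j, l, Fin.last r} : Finset (Fin (r + 1))).filter fun i => i < z) = {j, l} := by
          rw [Finset.filter_insert, if_pos h1, Finset.filter_insert, if_pos h2, Finset.filter_singleton,
            if_neg hnlast]
          rfl
        rw [this, Finset.card_pair hjl]
      rw [hG]
      rw [hXf] at hcount
      push_cast
      rcases hcount with h3 | h3
      · rw [h3]
        push_cast
        nlinarith
      · have h3' : ((F.filter fun i => z ≤ i).card : ℝ) + ((z : ℕ) : ℝ) ≤ F.card + 2 := by exact_mod_cast h3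
        have h4 : r + 1 ≤ (z : ℕ) + n := by
          have h5 : (l : ℕ) < z := h2
          omega
        have h4' : (r : ℝ) + 1 ≤ ((z : ℕ) : ℝ) + n := by exact_mod_cast h4
        have h5 : e * (((z : ℕ) : ℝ) + n - (r + 1)) ≤ ((z : ℕ) : ℝ) + n - (r + 1) :=
          mul_le_of_le_one_left (by linarith) he1
        nlinarith

/-- part (2) on positions -/
lemma part_two (n r : ℕ) (hn : 1 ≤ n) (hr : n + 2 ≤ r + 1) (hr2 : r + 1 ≤ 2 * n) (p : Fin (r + 1))
    (hp : p ≠ Fin.last r) (hpn : r ≤ (p : ℕ) + n) :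
    ∃ F : Finset (Fin (r + 1)), F.card = n ∧ p ∉ F ∧ Fin.last r ∉ F ∧
      ∀ z : Fin (r + 1), ((F.filter fun i => z ≤ i).card : ℝ) ≤ exS n (r + 1) * ((r : ℝ) + 1 - (z : ℕ)) := by
  have hXc : (({p, Fin.last r} : Finset (Fin (r + 1)))).card = 2 := Finset.card_pair hp
  obtain ⟨F, hFX, hFc, hF⟩ := exists_init ((({p, Fin.last r} : Finset (Fin (r + 1))))ᶜ) n (by
    rw [Finset.card_compl, hXc, Fintype.card_fin]
    omega)
  have hFn : ∀ x ∈ F, x ≠ p ∧ x ≠ Fin.last r := by
    intro x hx
    have h1 := hFX hx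
    simp only [Finset.mem_compl, Finset.mem_insert, Finset.mem_singleton, not_or] at h1
    exact h1
  refine ⟨F, hFc, fun h => (hFn _ h).1 rfl, fun h => (hFn _ h).2 rfl, ?_⟩
  intro z
  have hz := z.isLt
  have hR : ((r + 1 : ℕ) : ℝ) = (r : ℝ) + 1 := by push_cast; ring
  have he1 := exS_le_one (n := n) (r := r + 1) hn hr
  have heh := exS_half (n := n) (r := r + 1) hr hr2
  have hone := exS_one (n := n) (r := r + 1) hr
  have htwo := exS_two (n := n) (r := r + 1) hn
  rw [hR] at hone htwo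
  obtain ⟨e, he⟩ : ∃ e, e = exS n (r + 1) := ⟨_, rfl⟩
  rw [← he] at he1 heh hone htwo ⊢
  have hzr : ((z : ℕ) : ℝ) + 1 ≤ (r : ℝ) + 1 := by exact_mod_cast hz
  have hz0 : (0 : ℝ) ≤ ((z : ℕ) : ℝ) := Nat.cast_nonneg _
  have hnlast : ¬ Fin.last r < z := not_lt.2 (Fin.le_last z)
  have hcount := init_count ({p, Fin.last r} : Finset (Fin (r + 1))) F hF z
  have hFcr : (F.card : ℝ) = n := by exact_mod_cast hFc
  rcases hcount with h3 | h3
  · rw [h3]
    push_cast
    exact mul_nonneg (by linarith) (by linarith)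
  rcases le_or_gt z p with h1 | h1
  · have hXf : ((({p, Fin.last r} : Finset (Fin (r + 1))).filter fun i => i < z).card) = 0 := by
      rw [Finset.card_eq_zero, Finset.filter_eq_empty_iff]
      intro i hi
      simp only [Finset.mem_insert, Finset.mem_singleton] at hi
      rcases hi with rfl | rfl
      · exact not_lt.2 h1
      · exact hnlast
    rw [hXf] at h3
    have h3' : ((F.filter fun i => z ≤ i).card : ℝ) + ((z : ℕ) : ℝ) ≤ F.card := by exact_mod_cast h3
    have h4 : e * ((z : ℕ) : ℝ) ≤ ((z : ℕ) : ℝ) := mul_le_of_le_one_left hz0 he1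
    nlinarith
  · have hXf : ((({p, Fin.last r} : Finset (Fin (r + 1))).filter fun i => i < z).card) = 1 := by
      have : (({p, Fin.last r} : Finset (Fin (r + 1))).filter fun i => i < z) = {p} := by
        rw [Finset.filter_insert, if_pos h1, Finset.filter_singleton, if_neg hnlast]
        rfl
      rw [this, Finset.card_singleton]
    rw [hXf] at h3
    have h3' : ((F.filter fun i => z ≤ i).card : ℝ) + ((z : ℕ) : ℝ) ≤ F.card + 1 := by exact_mod_cast h3
    have h4 : r + 1 ≤ (z : ℕ) + n := by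
      have h5 : (p : ℕ) < z := h1
      omega
    have h4' : (r : ℝ) + 1 ≤ ((z : ℕ) : ℝ) + n := by exact_mod_cast h4
    have h5 : e * (((z : ℕ) : ℝ) + n - (r + 1)) ≤ ((z : ℕ) : ℝ) + n - (r + 1) :=
      mul_le_of_le_one_left (by linarith) he1
    nlinarith

theorem sel_comb (n r : ℕ) (hn : 1 ≤ n) (hr : n + 2 ≤ r) (hr2 : r ≤ 2 * n) (Y : Fin r → ℕ)
    (hY : ∀ i, 1 ≤ Y i) : Sel n r Y ((∏ i, (Y i : ℝ)) ^ exS n r) := by
  obtain ⟨r, rfl⟩ : ∃ r', r = r' + 1 := ⟨r - 1, by omega⟩
  obtain ⟨σ, hσ⟩ : ∃ σ : Equiv.Perm (Fin (r + 1)), Monotone fun p => Y (σ p) := ⟨Tuple.sort Y, Tuple.monotone_sort Y⟩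
  have hσi : Function.Injective σ := σ.injective
  refine ⟨σ (Fin.last r), ?_, ?_⟩
  · intro W hW hWc
    obtain ⟨j, hjV, l, hlV, hjl, hjt, hlt, F, hFc, hjF, hlF, htF, hc⟩ := part_one n r hn hr hr2
      (W.map σ.symm.toEmbedding) (by
        rw [Finset.mem_map_equiv]
        simpa using hW) (by rwa [Finset.card_map])
    rw [Finset.mem_map_equiv] at hjV hlV
    have hjW : σ j ∈ W := by simpa using hjV
    have hlW : σ l ∈ W := by simpa using hlV
    have hE : (insert (Fin.last r) (insert j (insert l F))).card = n + 2 := by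
      rw [Finset.card_insert_of_notMem, Finset.card_insert_of_notMem, Finset.card_insert_of_notMem hlF]
      · omega
      · rw [Finset.mem_insert, not_or]
        exact ⟨hjl, hjF⟩
      · rw [Finset.mem_insert, Finset.mem_insert, not_or, not_or]
        exact ⟨Ne.symm hjt, Ne.symm hlt, htF⟩
    obtain ⟨e0, he0, hE0⟩ := exists_enum _ hE
    obtain ⟨i', -, hi'⟩ := Finset.mem_image.1 (show Fin.last r ∈ Finset.univ.image e0 by
      rw [hE0]
      exact Finset.mem_insert_self _ _)
    obtain ⟨j', -, hj'⟩ := Finset.mem_image.1 (show j ∈ Finset.univ.image e0 by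
      rw [hE0]
      exact Finset.mem_insert_of_mem (Finset.mem_insert_self _ _))
    obtain ⟨l', -, hl'⟩ := Finset.mem_image.1 (show l ∈ Finset.univ.image e0 by
      rw [hE0]
      exact Finset.mem_insert_of_mem (Finset.mem_insert_of_mem (Finset.mem_insert_self _ _)))
    refine ⟨fun h => σ (e0 h), i', j', l', fun a b hab => he0 (hσi hab), ?_, ?_, ?_, ?_, ?_, ?_, ?_⟩
    · rintro rfl
      exact hjt (hj'.symm.trans hi')
    · rintro rfl
      exact hlt (hl'.symm.trans hi')
    · rintro rfl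
      exact hjl (hj'.symm.trans hl')
    · show σ (e0 i') = _
      rw [hi']
    · show σ (e0 j') ∈ W
      rw [hj']
      exact hjW
    · show σ (e0 l') ∈ W
      rw [hl']
      exact hlW
    · have h1 : (((Finset.univ.erase i').erase j').erase l').image e0 = F := by
        rw [Finset.image_erase he0, Finset.image_erase he0, Finset.image_erase he0, hE0, hi', hj', hl',
          Finset.erase_insert, Finset.erase_insert, Finset.erase_insert hlF]
        · rw [Finset.mem_insert, not_or]
          exact ⟨hjl, hjF⟩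
        · rw [Finset.mem_insert, Finset.mem_insert, not_or, not_or]
          exact ⟨Ne.symm hjt, Ne.symm hlt, htF⟩
      have h2 : ∏ h ∈ ((Finset.univ.erase i').erase j').erase l', (Y (σ (e0 h)) : ℝ) = ∏ p ∈ F, (Y (σ p) : ℝ) := by
        rw [prod_erase_inj he0 (((Finset.univ.erase i').erase j').erase l') (fun p => (Y (σ p) : ℝ)), h1]
      have h3 := bridge r Y hY σ hσ (exS n (r + 1)) F {j, l} hc
      rw [Finset.prod_pair hjl] at h3
      show (∏ h ∈ ((Finset.univ.erase i').erase j').erase l', (Y (σ (e0 h)) : ℝ)) *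
        Real.sqrt ((Y (σ (e0 j')) : ℝ) * Y (σ (e0 l'))) ≤ _
      rw [h2, hj', hl']
      exact h3
  · have hlt : ∀ h : Fin (n + 2), (h : ℕ) + (r - 1 - n) < r + 1 := by
      intro h
      have := h.isLt
      omega
    refine ⟨fun h => σ ⟨(h : ℕ) + (r - 1 - n), hlt h⟩, Fin.last (n + 1), ?_, ?_, ?_⟩
    · intro a b hab
      have h1 := congrArg Fin.val (hσi hab)
      exact Fin.ext (by simpa using h1)
    · show σ _ = σ _
      congr 1
      apply Fin.ext
      show n + 1 + (r - 1 - n) = r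
      omega
    · intro b b' hb hb' hbb
      obtain ⟨c, hc, hc1, hcl⟩ : ∃ c : Fin (n + 2), (c = b ∨ c = b') ∧ 1 ≤ (c : ℕ) ∧ (c : ℕ) < n + 1 := by
        have h1 : (b : ℕ) ≠ b' := fun h => hbb (Fin.ext h)
        have h2 : (b : ℕ) ≠ n + 1 := fun h => hb (Fin.ext h)
        have h3 : (b' : ℕ) ≠ n + 1 := fun h => hb' (Fin.ext h)
        have h4 := b.isLt
        have h5 := b'.isLt
        rcases Nat.lt_or_ge (b : ℕ) b' with h | h
        · exact ⟨b', Or.inr rfl, by omega, by omega⟩
        · exact ⟨b, Or.inl rfl, by omega, by omega⟩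
      refine ⟨c, hc, ?_⟩
      obtain ⟨p, hp⟩ : ∃ p : Fin (r + 1), p = ⟨(c : ℕ) + (r - 1 - n), hlt c⟩ := ⟨_, rfl⟩
      have hpv : (p : ℕ) = (c : ℕ) + (r - 1 - n) := by rw [hp]
      have hplast : p ≠ Fin.last r := by
        intro h
        have h1 : (p : ℕ) = r := by rw [h]; rfl
        omega
      obtain ⟨F, hFc, hpF, htF, hcc⟩ := part_two n r hn hr hr2 p hplast (by omega)
      have hE : (insert (Fin.last r) (insert p F)).card = n + 2 := by
        rw [Finset.card_insert_of_notMem, Finset.card_insert_of_notMem hpF, hFc]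
        rw [Finset.mem_insert, not_or]
        exact ⟨Ne.symm hplast, htF⟩
      obtain ⟨e0, he0, hE0⟩ := exists_enum _ hE
      obtain ⟨i', -, hi'⟩ := Finset.mem_image.1 (show Fin.last r ∈ Finset.univ.image e0 by
        rw [hE0]
        exact Finset.mem_insert_self _ _)
      obtain ⟨j', -, hj'⟩ := Finset.mem_image.1 (show p ∈ Finset.univ.image e0 by
        rw [hE0]
        exact Finset.mem_insert_of_mem (Finset.mem_insert_self _ _))
      refine ⟨fun h => σ (e0 h), i', j', fun a b hab => he0 (hσi hab), ?_, ?_, ?_, ?_⟩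
      · rintro rfl
        exact hplast (hj'.symm.trans hi')
      · show σ (e0 i') = _
        rw [hi']
      · show σ (e0 j') = σ ⟨(c : ℕ) + (r - 1 - n), hlt c⟩
        rw [hj', hp]
      · have h1 : ((Finset.univ.erase i').erase j').image e0 = F := by
          rw [Finset.image_erase he0, Finset.image_erase he0, hE0, hi', hj', Finset.erase_insert, Finset.erase_insert hpF]
          rw [Finset.mem_insert, not_or]
          exact ⟨Ne.symm hplast, htF⟩
        have h2 : ∏ h ∈ (Finset.univ.erase i').erase j', (Y (σ (e0 h)) : ℝ) = ∏ p ∈ F, (Y (σ p) : ℝ) := by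
          rw [prod_erase_inj he0 ((Finset.univ.erase i').erase j') (fun p => (Y (σ p) : ℝ)), h1]
        have h3 := bridge r Y hY σ hσ (exS n (r + 1)) F ∅ (by
          intro z
          rw [Finset.filter_empty, Finset.card_empty, Nat.cast_zero, zero_div, add_zero]
          exact hcc z)
        rw [Finset.prod_empty, Real.sqrt_one, mul_one] at h3
        show (∏ h ∈ (Finset.univ.erase i').erase j', (Y (σ (e0 h)) : ℝ)) ≤ _
        rw [h2]
        exact h3

end Pool.Agent.Helper93.RS
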