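import Mathlib

/-!
RS (MP_464c42_nt). Definitions: the exponent `max (n / r) ((2 n + 1 - r) / n)` and the choices of `n + 2` of `r` forms.
(helper93)
-/

set_option autoImplicit false

namespace Pool.Agent.Helper93.RS

/-- The exponent. -/
noncomputable def exS (n r : ℕ) : ℝ := max ((n : ℝ) / r) ((2 * (n : ℝ) + 1 - r) / n)

/-- The choices of `n + 2` of the `r` forms that are needed; `Y i` bounds the radical of the value of the form `i`. There is one
form `t` such that (1) for every set `W` of at least `r - n` other forms there are `n + 2` forms, among them `t` and two forms of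
`W`, and (2) there are `n + 2` forms `e`, among them `t`, such that of any two others one, `e c`, occurs together with `t` in a set of
`n + 2` forms, for which the given products are at most `Q`. -/
def Sel (n r : ℕ) (Y : Fin r → ℕ) (Q : ℝ) : Prop :=
  ∃ t : Fin r,
    (∀ W : Finset (Fin r), t ∉ W → r ≤ W.card + n →
      ∃ (e : Fin (n + 2) → Fin r) (i j l : Fin (n + 2)), Function.Injective e ∧
        i ≠ j ∧ i ≠ l ∧ j ≠ l ∧ e i = t ∧ e j ∈ W ∧ e l ∈ W ∧
        (∏ h ∈ ((Finset.univ.erase i).erase j).erase l, (Y (e h) : ℝ)) *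
          Real.sqrt ((Y (e j) : ℝ) * Y (e l)) ≤ Q) ∧
    ∃ (e : Fin (n + 2) → Fin r) (i : Fin (n + 2)), Function.Injective e ∧ e i = t ∧
      ∀ b b' : Fin (n + 2), b ≠ i → b' ≠ i → b ≠ b' → ∃ c, (c = b ∨ c = b') ∧
        ∃ (e' : Fin (n + 2) → Fin r) (i' j' : Fin (n + 2)), Function.Injective e' ∧
          i' ≠ j' ∧ e' i' = t ∧ e' j' = e c ∧
          (∏ h ∈ (Finset.univ.erase i').erase j', (Y (e' h) : ℝ)) ≤ Q

end Pool.Agent.Helper93.RS
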