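import Pool.Agent.Helper93.RS.ApV
import Pool.Agent.Helper24.TU.Geo
import Pool.Agent.Helper24.TU.Trans
import Pool.Agent.Helper66.RP.DyOf

/-!
RS-3 (MP_464c42_nt). From `apV` to the values of `r` forms in general position, one dyadic range of heights.

Proof. As `Helper87/RP/Fix.lean`. `v i = lin L i x`; for an injective `e : Fin (n + 2) → Fin r` let `L_e = L.submatrix e id`, all `minor L_e i ≠ 0`
(`minor_sub` in `Helper66/RP/DyOf.lean`), `lin L (e i) x = form L_e i x`, `ρ e i = rel L_e i`. `S'` = `S` and the primes of all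
`ρ e i` and of all the minors `det (L.submatrix e' id)`, `e' : Fin (n + 1) → Fin r` injective. `G`, `Cmin` = the sums over all `e` of the constants in
`Fix.lean`. `few`: for `p ∉ S'` let `W = {i | ¬ p ∣ lin L i x}`; if `W.card + n < r` there are `n + 1` forms (an injective `e'`) with values divisible by `p`, so
`p ∣ det * x j` for all `j` (Cramer, `adjugate`), `p ∣ x j`, and `x` is not primitive. Injectivity: `form_injective` for one `L_e`.
`radS S' (v i) ≤ radS S (lin L i x) ≤ Y i` (as `S ⊆ S'`).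
(helper93, helper24)
-/

set_option autoImplicit false

open Pool.Agent.Helper87.Camp Pool.Agent.Helper10 Pool.Agent.Helper91.CPX

namespace Pool.Agent.Helper93.RS

open Pool.Agent.Helper24.TU Pool.Agent.Helper24.TV Pool.Agent.Helper87.RP

private lemma fx_size {n : ℕ} (L : Matrix (Fin (n + 2)) (Fin (n + 1)) ℤ) (x : Fin (n + 1) → ℤ)
    (i : Fin (n + 2)) : (rel L i * form L i x).natAbs ≤
      ((∑ i, (rel L i).natAbs * ∑ j, (L i j).natAbs) + 1) * ht x := by
  have h1 : (form L i x).natAbs ≤ (∑ j, (L i j).natAbs) * ht x := by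
    unfold form
    rw [Finset.sum_mul]
    refine (Int.natAbs_sum_le _ _).trans (Finset.sum_le_sum fun j _ => ?_)
    rw [Int.natAbs_mul]
    exact Nat.mul_le_mul_left _ (le_ht x j)
  calc (rel L i * form L i x).natAbs = (rel L i).natAbs * (form L i x).natAbs := Int.natAbs_mul _ _
    _ ≤ (rel L i).natAbs * ((∑ j, (L i j).natAbs) * ht x) := Nat.mul_le_mul_left _ h1
    _ = ((rel L i).natAbs * ∑ j, (L i j).natAbs) * ht x := by ring
    _ ≤ _ := by
        apply Nat.mul_le_mul_right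
        have := Finset.single_le_sum (f := fun i => (rel L i).natAbs * ∑ j, (L i j).natAbs)
          (fun _ _ => Nat.zero_le _) (Finset.mem_univ i)
        omega

private lemma fx_rad (S S' : Finset ℕ) (hS : S ⊆ S') (f : ℤ) : radS S' f ≤ radS S f := by
  apply Nat.le_of_dvd (radS_pos S f)
  unfold radS
  apply Finset.prod_dvd_prod_of_subset
  intro p hp
  rw [Finset.mem_filter] at hp
  rw [Finset.mem_filter]
  exact ⟨hp.1, fun h => hp.2 (hS h)⟩

/-- A prime outside `S'` divides at most `n` of the values. -/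
private lemma fx_few {n r : ℕ} (L : Matrix (Fin r) (Fin (n + 1)) ℤ) (x : Fin (n + 1) → ℤ)
    (hx : ∀ d : ℤ, (∀ j, d ∣ x j) → IsUnit d) (p : ℕ) (hp : p.Prime)
    (hd : ∀ e' : Fin (n + 1) → Fin r, Function.Injective e' →
      ¬ (p : ℤ) ∣ (L.submatrix e' id).det) :
    ∃ W : Finset (Fin r), r ≤ W.card + n ∧ ∀ i ∈ W, ¬ (p : ℤ) ∣ lin L i x := by
  classical
  obtain ⟨W, hW⟩ : ∃ W : Finset (Fin r), W = Finset.univ.filter fun i => ¬ (p : ℤ) ∣ lin L i x :=
    ⟨_, rfl⟩
  refine ⟨W, ?_, fun i hi => ?_⟩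
  · by_contra hlt
    push Not at hlt
    have hcard : W.card + Wᶜ.card = r := by
      rw [Finset.card_add_card_compl, Fintype.card_fin]
    have h1 : n + 1 ≤ Wᶜ.card := by omega
    obtain ⟨V, hV, hVc⟩ := Finset.exists_subset_card_eq h1
    have hdiv : ∀ i ∈ V, (p : ℤ) ∣ lin L i x := by
      intro i hi
      by_contra hn
      have h2 := hV hi
      rw [Finset.mem_compl, hW, Finset.mem_filter] at h2
      exact h2 ⟨Finset.mem_univ _, hn⟩
    have e' := V.equivFinOfCardEq hVc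
    obtain ⟨f, hf⟩ : ∃ f : Fin (n + 1) → Fin r, f = fun k => ((e'.symm k : V) : Fin r) := ⟨_, rfl⟩
    have hfi : Function.Injective f := by
      intro a b hab
      rw [hf] at hab
      exact e'.symm.injective (Subtype.ext hab)
    have hfV : ∀ k, (p : ℤ) ∣ lin L (f k) x := by
      intro k
      rw [hf]
      exact hdiv _ (e'.symm k).2
    have hp' : Prime (p : ℤ) := Nat.prime_iff_prime_int.mp hp
    have h3 : (L.submatrix f id).adjugate.mulVec ((L.submatrix f id).mulVec x) =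
        (L.submatrix f id).det • x := by
      rw [Matrix.mulVec_mulVec, Matrix.adjugate_mul, Matrix.smul_mulVec, Matrix.one_mulVec]
    have h5 : ∀ j, (p : ℤ) ∣ x j := by
      intro j
      have h4 := congrFun h3 j
      rw [Pi.smul_apply, smul_eq_mul] at h4
      have h6 : (p : ℤ) ∣ (L.submatrix f id).det * x j := by
        rw [← h4]
        change (p : ℤ) ∣ ∑ k, (L.submatrix f id).adjugate j k * lin L (f k) x
        exact Finset.dvd_sum fun k _ => (hfV k).mul_left _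
      exact (hp'.dvd_or_dvd h6).resolve_left (hd f hfi)
    exact hp'.not_isUnit (hx _ h5)
  · rw [hW, Finset.mem_filter] at hi
    exact hi.2

theorem fixR (n r : ℕ) (hn : 1 ≤ n) (hr : n + 2 ≤ r) (ε : ℝ) (hε : 0 < ε) :
    ∃ lam0 : ℝ, 0 < lam0 ∧ ∀ lam : ℝ, 0 < lam → lam ≤ lam0 →
      ∀ (S : Finset ℕ) (L : Matrix (Fin r) (Fin (n + 1)) ℤ), GenPos L →
      ∃ Cmin : ℕ, 1 ≤ Cmin ∧ ∀ K0 : ℕ, Cmin ≤ K0 → ∃ C : ℝ, 1 ≤ C ∧
      ∀ (H : ℕ) (Y : Fin r → ℕ), 1 ≤ H →
      (∀ i, 1 ≤ Y i ∧ (Y i : ℝ) ≤ ((K0 * H : ℕ) : ℝ) ^ lam) → ∀ T : Finset (Fin (n + 1) → ℤ),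
      (∀ x ∈ T, (∀ d : ℤ, (∀ j, d ∣ x j) → IsUnit d) ∧ ht x ≤ H ∧ H ≤ 2 * ht x ∧
        ∀ i, lin L i x ≠ 0 ∧ radS S (lin L i x) ≤ Y i) →
      ∀ Q : ℝ, Sel n r Y Q →
      (T.card : ℝ) ≤ C * (Q * ((K0 * H : ℕ) : ℝ) ^ (ε * lam)) := by
  classical
  obtain ⟨lam0, hlam0, hmain⟩ := apV n r hn ε hε
  refine ⟨lam0, hlam0, fun lam hlam hle S L hL => ?_⟩
  -- the matrices of `n + 2` forms
  have hM : ∀ e : Fin (n + 2) → Fin r, Function.Injective e → ∀ i,
      minor (L.submatrix e id) i ≠ 0 := fun e he i => Pool.Agent.Helper66.RP.minor_sub hL e he i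
  have hlin : ∀ (e : Fin (n + 2) → Fin r) (i : Fin (n + 2)) (x : Fin (n + 1) → ℤ),
      form (L.submatrix e id) i x = lin L (e i) x := fun _ _ _ => rfl
  obtain ⟨ρ, hρ⟩ : ∃ ρ : (Fin (n + 2) → Fin r) → Fin (n + 2) → ℤ,
    ρ = fun e i => rel (L.submatrix e id) i := ⟨_, rfl⟩
  have hρ' : ∀ e i, ρ e i = rel (L.submatrix e id) i := fun e i => by rw [hρ]
  have hrel : ∀ e, Function.Injective e → ∀ i, ρ e i ≠ 0 := by
    intro e he i
    rw [hρ' e i]
    unfold rel
    exact mul_ne_zero (pow_ne_zero _ (by norm_num)) (hM e he i)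
  have hgeo0 : ∀ e : Fin (n + 2) → Fin r, ∃ G : ℕ, Function.Injective e →
      ∀ x : Fin (n + 1) → ℤ, (∀ d : ℤ, (∀ j, d ∣ x j) → IsUnit d) →
      (∃ i, (ht x : ℤ) ≤ G * |form (L.submatrix e id) i x|) ∧
      ∀ g : ℤ, (∀ i, g ∣ rel (L.submatrix e id) i * form (L.submatrix e id) i x) → |g| ≤ G := by
    intro e
    by_cases he : Function.Injective e
    · obtain ⟨G, -, hG⟩ := geo (L.submatrix e id) (hM e he)
      exact ⟨G, fun _ => hG⟩
    · exact ⟨0, fun h => absurd h he⟩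
  choose Gf hGf using hgeo0
  obtain ⟨G1, hG1⟩ : ∃ G1 : ℕ, G1 = ∑ e, Gf e := ⟨_, rfl⟩
  have hGle : ∀ e, Gf e ≤ G1 := by
    intro e
    rw [hG1]
    exact Finset.single_le_sum (f := Gf) (fun _ _ => Nat.zero_le _) (Finset.mem_univ e)
  obtain ⟨S', hS'⟩ : ∃ S' : Finset ℕ,
    S' = S ∪ ((Finset.univ.biUnion fun e => Finset.univ.biUnion fun i =>
        (ρ e i).natAbs.primeFactors) ∪
      Finset.univ.biUnion fun e' : Fin (n + 1) → Fin r =>
        (L.submatrix e' id).det.natAbs.primeFactors) := ⟨_, rfl⟩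
  have hnd : ∀ e, Function.Injective e → ∀ i, ∀ p : ℕ, p.Prime → p ∉ S' → ¬ (p : ℤ) ∣ ρ e i := by
    intro e he i p hp hpS h1
    rw [hS', Finset.mem_union, Finset.mem_union, not_or, not_or] at hpS
    apply hpS.2.1
    rw [Finset.mem_biUnion]
    refine ⟨e, Finset.mem_univ _, ?_⟩
    rw [Finset.mem_biUnion]
    refine ⟨i, Finset.mem_univ _, ?_⟩
    rw [Nat.mem_primeFactors]
    exact ⟨hp, Int.natCast_dvd.mp h1, Int.natAbs_ne_zero.mpr (hrel e he i)⟩
  have hndet : ∀ p : ℕ, p.Prime → p ∉ S' → ∀ e' : Fin (n + 1) → Fin r, Function.Injective e' →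
      ¬ (p : ℤ) ∣ (L.submatrix e' id).det := by
    intro p hp hpS e' he' h1
    rw [hS', Finset.mem_union, Finset.mem_union, not_or, not_or] at hpS
    apply hpS.2.2
    rw [Finset.mem_biUnion]
    refine ⟨e', Finset.mem_univ _, ?_⟩
    rw [Nat.mem_primeFactors]
    exact ⟨hp, Int.natCast_dvd.mp h1, Int.natAbs_ne_zero.mpr (hL e' he')⟩
  have hSS : S ⊆ S' := by
    rw [hS']
    exact Finset.subset_union_left
  obtain ⟨Cf, hCf⟩ : ∃ Cf : (Fin (n + 2) → Fin r) → ℕ, Cf = fun e =>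
    (∑ i, (rel (L.submatrix e id) i).natAbs * ∑ j, (L.submatrix e id i j).natAbs) + 1 := ⟨_, rfl⟩
  obtain ⟨C0, hC0⟩ : ∃ C0 : ℕ, C0 = (∑ e, Cf e) + 1 := ⟨_, rfl⟩
  have hCle : ∀ e, Cf e ≤ C0 := by
    intro e
    have := Finset.single_le_sum (f := Cf) (fun _ _ => Nat.zero_le _) (Finset.mem_univ e)
    omega
  have hC0pos : 1 ≤ C0 := by omega
  refine ⟨C0, hC0pos, fun K0 hK0 => ?_⟩
  obtain ⟨C, hC1, hC⟩ := hmain lam hlam hle S' (2 * K0 * G1) ρ
    fun e he i => ⟨hrel e he i, hnd e he i⟩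
  refine ⟨C, hC1, fun H Y hH hY T hT Q hQ => ?_⟩
  obtain ⟨f, hf⟩ : ∃ f : (Fin (n + 1) → ℤ) → (Fin r → ℤ), f = fun x i => lin L i x := ⟨_, rfl⟩
  have hf' : ∀ x i, f x i = lin L i x := fun x i => by rw [hf]
  have hinj : ∀ e : Fin (n + 2) → Fin r, Function.Injective e → ∀ x y,
      (∀ i, f x (e i) = f y (e i)) → x = y := by
    intro e he x y hxy
    apply form_injective (L.submatrix e id) (hM e he)
    intro i
    have := hxy i
    rw [hf', hf'] at this
    rw [hlin, hlin]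
    exact this
  obtain ⟨e0, he0⟩ : ∃ e0 : Fin (n + 2) → Fin r, Function.Injective e0 :=
    ⟨Fin.castLE hr, Fin.castLE_injective hr⟩
  have hfi : Function.Injective f := fun x y hxy => hinj e0 he0 x y fun i => by rw [hxy]
  rw [← Finset.card_image_of_injective _ hfi]
  refine hC (K0 * H) Y (Nat.mul_pos (by omega) (by omega)) hY Q hQ (T.image f) ?_ ?_
  · intro a ha
    rw [Finset.mem_image] at ha
    obtain ⟨x, hx, rfl⟩ := ha
    obtain ⟨hx1, hx2, hx3, hx4⟩ := hT x hx
    refine ⟨fun i => ?_, fun i => ?_, fun e he i => ?_, fun e he => ?_, fun e he => ?_,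
      fun e he g hg => ?_, fun p hp hpS => ?_⟩
    · rw [hf']
      exact (hx4 i).1
    · rw [hf']
      exact (fx_rad S S' hSS _).trans (hx4 i).2
    · rw [hf', hρ', ← hlin]
      refine (fx_size (L.submatrix e id) x i).trans ?_
      have h1 := hCle e
      rw [hCf] at h1
      exact (Nat.mul_le_mul_right _ h1).trans (Nat.mul_le_mul hK0 hx2)
    · have h1 := rel_form_sum (L.submatrix e id) x
      rw [← h1]
      refine Finset.sum_congr rfl fun i _ => ?_
      rw [hf', hρ', ← hlin]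
    · obtain ⟨⟨i, hi⟩, -⟩ := hGf e he x hx1
      refine ⟨i, ?_⟩
      rw [hf', hρ', ← hlin]
      have h1 : ht x ≤ G1 * (form (L.submatrix e id) i x).natAbs := by
        have h2 : (ht x : ℤ) ≤ ((Gf e * (form (L.submatrix e id) i x).natAbs : ℕ) : ℤ) := by
          push_cast
          exact hi
        have h3 : ht x ≤ Gf e * (form (L.submatrix e id) i x).natAbs := by exact_mod_cast h2
        exact h3.trans (Nat.mul_le_mul_right _ (hGle e))
      have h2 : 1 ≤ (rel (L.submatrix e id) i).natAbs := by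
        apply Nat.one_le_iff_ne_zero.2 (Int.natAbs_ne_zero.2 _)
        rw [← hρ']
        exact hrel e he i
      have h3 : K0 * H ≤ 2 * K0 * G1 *
          (rel (L.submatrix e id) i * form (L.submatrix e id) i x).natAbs := by
        calc K0 * H ≤ K0 * (2 * ht x) := Nat.mul_le_mul_left _ hx3
          _ = 2 * K0 * ht x := by ring
          _ ≤ 2 * K0 * (G1 * (form (L.submatrix e id) i x).natAbs) := Nat.mul_le_mul_left _ h1
          _ = 2 * K0 * G1 * (1 * (form (L.submatrix e id) i x).natAbs) := by ring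
          _ ≤ 2 * K0 * G1 * ((rel (L.submatrix e id) i).natAbs *
              (form (L.submatrix e id) i x).natAbs) :=
              Nat.mul_le_mul_left _ (Nat.mul_le_mul_right _ h2)
          _ = _ := by rw [Int.natAbs_mul]
      rw [← Int.natCast_natAbs]
      exact_mod_cast h3
    · have h1 := (hGf e he x hx1).2 g fun i => by
        have := hg i
        rw [hf', hρ', ← hlin] at this
        exact this
      have h2 : Gf e ≤ 2 * K0 * G1 := by
        calc Gf e ≤ G1 := hGle e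
          _ = 1 * G1 := (one_mul _).symm
          _ ≤ 2 * K0 * G1 := Nat.mul_le_mul_right _ (by omega)
      have h3 : (Gf e : ℤ) ≤ ((2 * K0 * G1 : ℕ) : ℤ) := by exact_mod_cast h2
      exact h1.trans h3
    · obtain ⟨W, hW, hWd⟩ := fx_few L x hx1 p hp (hndet p hp hpS)
      exact ⟨W, hW, fun i hi => by rw [hf']; exact hWd i hi⟩
  · intro v hv v' hv' e he hvv
    rw [Finset.mem_image] at hv hv'
    obtain ⟨x, -, rfl⟩ := hv
    obtain ⟨y, -, rfl⟩ := hv'
    rw [hinj e he x y hvv]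

end Pool.Agent.Helper93.RS
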