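import Pool.Agent.Helper93.RS.Comb
import Pool.Agent.Helper93.RS.FixR
import Pool.Agent.Helper66.RP.DyR
import Pool.Agent.Helper87.RP.MainQ

/-!
RS-4 (MP_464c42_nt). The bound with the exponent `max (n / r) ((2 n + 1 - r) / n)` for all `r ≥ n + 2`.

Proof. `dy_s` (`r ≤ 2 n`): `dy_ofR` (`Helper66/RP/DyR.lean`) with `fixR` and `sel_comb`. `main_s`: `r ≤ 2 n` by `sum_dy` and `dy_s`;
`r > 2 n` by `main_q` (`Helper87/RP/MainQ.lean`; the maximum there is `n / r` and `(2 n + 1 - r) / n ≤ 0`).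
(helper66)
-/

set_option autoImplicit false

open Pool.Agent.Helper87.Camp Pool.Agent.Helper10 Pool.Agent.Helper91.CPX

namespace Pool.Agent.Helper93.RS

open Pool.Agent.Helper24.TU Pool.Agent.Helper24.TV Pool.Agent.Helper87.RP Pool.Agent.Helper13.RP

theorem Sel.mono {n r : ℕ} {Y : Fin r → ℕ} {Q Q' : ℝ} (h : Sel n r Y Q) (hQ : Q ≤ Q') :
    Sel n r Y Q' := by
  obtain ⟨t, h1, e, i, he, hei, h2⟩ := h
  refine ⟨t, fun W ht hW => ?_, e, i, he, hei, fun b b' hb hb' hbb => ?_⟩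
  · obtain ⟨e', i', j, l, g1, g2, g3, g4, g5, g6, g7, g8⟩ := h1 W ht hW
    exact ⟨e', i', j, l, g1, g2, g3, g4, g5, g6, g7, g8.trans hQ⟩
  · obtain ⟨c, hc, e', i', j', g1, g2, g3, g4, g5⟩ := h2 b b' hb hb' hbb
    exact ⟨c, hc, e', i', j', g1, g2, g3, g4, g5.trans hQ⟩

theorem exS_nonneg' (n r : ℕ) : 0 ≤ exS n r := by
  unfold exS
  exact le_max_of_le_left (by positivity)

theorem exS_le_one' {n r : ℕ} (hn : 1 ≤ n) (hr : n + 2 ≤ r) : exS n r ≤ 1 := by
  have hn0 : (0 : ℝ) < n := by exact_mod_cast hn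
  have hr' : (n : ℝ) + 2 ≤ r := by exact_mod_cast hr
  unfold exS
  refine max_le ?_ ?_
  · rw [div_le_one (by linarith)]
    linarith
  · rw [div_le_one hn0]
    linarith

theorem dy_s (n r : ℕ) (hn : 1 ≤ n) (hr : n + 2 ≤ r) (hr2 : r ≤ 2 * n) : Dy n r (exS n r) := by
  have he0 := exS_nonneg' n r
  have he1 := exS_le_one' hn hr
  refine Pool.Agent.Helper66.RP.dy_ofR (c := 2 ^ r) (QB := Sel n r) he0
    (one_le_pow₀ (by norm_num)) (by omega) ?_ ?_
  · intro ε hε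
    obtain ⟨lam0, hlam0, h⟩ := fixR n r hn hr ε hε
    refine ⟨lam0, hlam0, fun lam hlam hle S L hL => ?_⟩
    obtain ⟨Cmin, hC1, h2⟩ := h lam hlam hle S L hL
    refine ⟨Cmin, hC1, fun K0 hK0 => ?_⟩
    obtain ⟨C, hC, h3⟩ := h2 K0 hK0
    exact ⟨C, hC, fun H Y hH hY T hT Q _ hS => h3 H Y hH hY T hT Q hS⟩
  · intro R Y hRY
    refine (sel_comb n r hn hr hr2 Y fun i => (hRY i).1).mono ?_
    have h1 : ∏ i, (Y i : ℝ) ≤ 2 ^ r * ((∏ i, R i : ℕ) : ℝ) := by
      calc ∏ i, (Y i : ℝ) ≤ ∏ i, (2 * (R i : ℝ)) :=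
            Finset.prod_le_prod (fun i _ => Nat.cast_nonneg _) fun i _ => by
              exact_mod_cast (hRY i).2
        _ = 2 ^ r * ((∏ i, R i : ℕ) : ℝ) := by
            rw [Finset.prod_mul_distrib, Finset.prod_const, Finset.card_univ, Fintype.card_fin]
            push_cast
            rfl
    calc (∏ i, (Y i : ℝ)) ^ exS n r ≤ (2 ^ r * ((∏ i, R i : ℕ) : ℝ)) ^ exS n r :=
          Real.rpow_le_rpow (Finset.prod_nonneg fun i _ => Nat.cast_nonneg _) h1 he0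
      _ = (2 ^ r : ℝ) ^ exS n r * ((∏ i, R i : ℕ) : ℝ) ^ exS n r :=
          Real.mul_rpow (by positivity) (Nat.cast_nonneg _)
      _ ≤ 2 ^ r * ((∏ i, R i : ℕ) : ℝ) ^ exS n r := by
          refine mul_le_mul_of_nonneg_right ?_ (Real.rpow_nonneg (Nat.cast_nonneg _) _)
          calc (2 ^ r : ℝ) ^ exS n r ≤ (2 ^ r : ℝ) ^ (1 : ℝ) :=
                Real.rpow_le_rpow_of_exponent_le (one_le_pow₀ (by norm_num)) he1
            _ = 2 ^ r := Real.rpow_one _

theorem main_s (n r : ℕ) (hn : 1 ≤ n) (hr : n + 2 ≤ r) : Bd1 n r (exS n r) := by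
  rcases Nat.lt_or_ge (2 * n) r with h | h
  · have h1 := main_q n r hn hr
    have hn1 : (1 : ℝ) ≤ n := by exact_mod_cast hn
    have hr1 : 2 * (n : ℝ) + 1 ≤ r := by exact_mod_cast h
    have h2 : max ((n : ℝ) / r) (((n : ℝ) - 1) / ((r : ℝ) - 2)) = exS n r := by
      unfold exS
      rw [max_eq_left, max_eq_left]
      · refine le_trans (div_nonpos_of_nonpos_of_nonneg (by linarith) (by linarith)) ?_
        positivity
      · rw [div_le_div_iff₀ (by linarith) (by linarith)]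
        nlinarith
    rwa [h2] at h1
  · exact sum_dy (exS_nonneg' n r) (dy_s n r hn hr h)

end Pool.Agent.Helper93.RS
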